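import Mathlib

/-! Counting maps by revealing the values one after the other. -/

set_option autoImplicit false

namespace Pool.Agent.C4M.H58

open Finset

variable {V : Type*} [DecidableEq V]

/-- numbering of a finset -/
noncomputable def num (T : Finset V) (u : V) : ℕ :=
  if h : u ∈ T then (T.equivFin ⟨u, h⟩ : ℕ) else 0

theorem num_lt {T : Finset V} {u : V} (h : u ∈ T) : num T u < T.card := by
  rw [num, dif_pos h]
  exact (T.equivFin ⟨u, h⟩).2

theorem num_inj {T : Finset V} {u u' : V} (h : u ∈ T) (h' : u' ∈ T) (e : num T u = num T u') :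
    u = u' := by
  rw [num, num, dif_pos h, dif_pos h'] at e
  have := T.equivFin.injective (Fin.ext e)
  exact congrArg Subtype.val this

/-- CNT -/
theorem card_le_prod {m : ℕ} (S : Finset (Fin m → V)) (T : Fin m → (Fin m → V) → Finset V)
    (b : Fin m → ℕ) (hdep : ∀ t v w, (∀ j < t, v j = w j) → T t v = T t w)
    (hT : ∀ t v, (T t v).card ≤ b t) (hS : ∀ v ∈ S, ∀ t, v t ∈ T t v) :
    S.card ≤ ∏ t, b t := by
  classical
  let f : (Fin m → V) → Fin m → ℕ := fun v t => num (T t v) (v t)
  have h1 : S.card ≤ (Fintype.piFinset fun t => Finset.range (b t)).card := by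
    refine Finset.card_le_card_of_injOn f ?_ ?_
    · intro v hv
      rw [Finset.mem_coe, Fintype.mem_piFinset]
      intro t
      exact Finset.mem_range.2 ((num_lt (hS v hv t)).trans_le (hT t v))
    · intro v hv w hw hvw
      have key : ∀ n : ℕ, ∀ t : Fin m, (t : ℕ) = n → v t = w t := by
        intro n
        induction n using Nat.strong_induction_on with
        | _ n ih =>
            intro t ht
            have hT' : T t v = T t w := hdep t v w fun j hj => ih j (by
              rw [← ht]; exact hj) j rfl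
            have h2 : num (T t v) (v t) = num (T t w) (w t) := congrFun hvw t
            rw [← hT'] at h2
            exact num_inj (hS v hv t) (by rw [hT']; exact hS w hw t) h2
      funext t
      exact key t t rfl
  rw [Fintype.card_piFinset] at h1
  simpa using h1

/-- CNT, real bounds -/
theorem card_le_prod_real {m : ℕ} (S : Finset (Fin m → V)) (T : Fin m → (Fin m → V) → Finset V)
    (b : Fin m → ℝ) (hb : ∀ t, 0 ≤ b t) (hdep : ∀ t v w, (∀ j < t, v j = w j) → T t v = T t w)
    (hT : ∀ t v, ((T t v).card : ℝ) ≤ b t) (hS : ∀ v ∈ S, ∀ t, v t ∈ T t v) :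
    (S.card : ℝ) ≤ ∏ t, b t := by
  have h1 := card_le_prod S T (fun t => ⌊b t⌋₊) hdep (fun t v => Nat.le_floor (hT t v)) hS
  calc (S.card : ℝ) ≤ ((∏ t, ⌊b t⌋₊ : ℕ) : ℝ) := by exact_mod_cast h1
    _ = ∏ t, (⌊b t⌋₊ : ℝ) := by push_cast; rfl
    _ ≤ ∏ t, b t := Finset.prod_le_prod (fun t _ => Nat.cast_nonneg _) fun t _ =>
        Nat.floor_le (hb t)

end Pool.Agent.C4M.H58
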