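import Pool.Agent.Helper58_C4.Exb
import Pool.Agent.Helper58_C4.Cnt

/-! EXW: the expectations of products of marks summed over the shifts of the copies. -/

set_option autoImplicit false
set_option linter.unusedSectionVars false

namespace Pool.Agent.C4M.H58

open Finset

section

variable {V Λ J : Type*} [Fintype V] [DecidableEq V] [Fintype Λ] [DecidableEq Λ]

/-- EXB for a product over a finite set of indices -/
theorem exbZ (Z : Finset J) (v : J → V) (φ : J → Λ → ℝ) :
    avg (fun h : V → Λ => ∏ t ∈ Z, φ t (h (v t)))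
      = ∏ u, avg fun l => ∏ t ∈ Z.filter (fun t => v t = u), φ t l := by
  unfold avg
  rw [Finset.prod_div_distrib]
  congr 1
  · rw [Finset.prod_univ_sum, Fintype.piFinset_univ]
    refine Finset.sum_congr rfl fun h _ => ?_
    show ∏ t ∈ Z, φ t (h (v t)) = _
    rw [← Finset.prod_fiberwise (s := Z) (g := v)]
    refine Finset.prod_congr rfl fun u _ => ?_
    refine Finset.prod_congr rfl fun t ht => ?_
    rw [(Finset.mem_filter.1 ht).2]
  · rw [Finset.prod_const, Finset.card_univ, Fintype.card_fun]
    push_cast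
    rfl

/-- all labels are equal on `S` -/
def EqOn' (lab : J → Λ) (S : Finset J) : Prop := ∀ t ∈ S, ∀ t' ∈ S, lab t = lab t'

open Classical in
/-- the average of a product of marks, with the classes of equal labels -/
theorem avg_prod_abs_mk_le_sum (Z : Finset J) (lab : J → Λ) (hΛ : 1 ≤ Fintype.card Λ) :
    (avg fun l => ∏ t ∈ Z, |mk (Fintype.card Λ : ℝ) (lab t) l|)
      ≤ ∑ S ∈ Z.powerset, if EqOn' lab S then (Fintype.card Λ : ℝ) ^ (S.card - 1) else 0 := by
  set M : ℝ := (Fintype.card Λ : ℝ) with hM
  have hM1 : 1 ≤ M := by rw [hM]; exact_mod_cast hΛ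
  have hM0 : 0 < M := by linarith
  refine (avg_mono fun l => prod_abs_mk_le hM1 Z lab l).trans ?_
  unfold avg
  rw [← hM, div_le_iff₀ hM0]
  set T : Λ → Finset J := fun l => Z.filter fun t => lab t = l with hT
  have hTE : ∀ l, EqOn' lab (T l) := by
    intro l t ht t' ht'
    rw [(Finset.mem_filter.1 ht).2, (Finset.mem_filter.1 ht').2]
  have hsplit : ∑ l, M ^ (T l).card
      ≤ M + ∑ l ∈ Finset.univ.filter (fun l => (T l).Nonempty), M ^ ((T l).card - 1) * M := by
    rw [← Finset.sum_filter_add_sum_filter_not Finset.univ (fun l => ¬ (T l).Nonempty)]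
    refine add_le_add ?_ ?_
    · have h1 : ∀ l ∈ Finset.univ.filter (fun l => ¬ (T l).Nonempty), M ^ (T l).card = 1 := by
        intro l hl
        have := (Finset.mem_filter.1 hl).2
        rw [Finset.not_nonempty_iff_eq_empty] at this
        rw [this]; simp
      rw [Finset.sum_congr rfl h1, Finset.sum_const, nsmul_eq_mul, mul_one, hM]
      exact_mod_cast Finset.card_le_univ _
    · have h2 : Finset.univ.filter (fun l => ¬ ¬ (T l).Nonempty)
          = Finset.univ.filter (fun l => (T l).Nonempty) := by
        refine Finset.filter_congr fun l _ => ?_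
        rw [not_not]
      rw [h2]
      refine le_of_eq (Finset.sum_congr rfl fun l hl => ?_)
      have h3 : 0 < (T l).card := Finset.card_pos.2 (Finset.mem_filter.1 hl).2
      rw [← pow_succ]
      congr 1
      omega
  refine hsplit.trans ?_
  rw [← Finset.sum_mul]
  have h4 : ∑ S ∈ Z.powerset, (if EqOn' lab S then M ^ (S.card - 1) else 0)
      = 1 + ∑ S ∈ Z.powerset.erase ∅, (if EqOn' lab S then M ^ (S.card - 1) else 0) := by
    rw [← Finset.add_sum_erase _ _ (Finset.empty_mem_powerset Z)]
    congr 1
    rw [if_pos (by intro t ht; simp at ht)]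
    simp
  rw [h4, add_mul, one_mul]
  refine add_le_add le_rfl ?_
  refine mul_le_mul_of_nonneg_right ?_ hM0.le
  have hinj : Set.InjOn T (Finset.univ.filter (fun l => (T l).Nonempty) : Finset Λ) := by
    intro l hl l' hl' h
    have h5 := (Finset.mem_filter.1 hl).2
    obtain ⟨t, ht⟩ := h5
    have h6 := ht
    rw [h] at h6
    rw [← (Finset.mem_filter.1 ht).2, ← (Finset.mem_filter.1 h6).2]
  calc ∑ l ∈ Finset.univ.filter (fun l => (T l).Nonempty), M ^ ((T l).card - 1)
      = ∑ l ∈ Finset.univ.filter (fun l => (T l).Nonempty),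
          (if EqOn' lab (T l) then M ^ ((T l).card - 1) else 0) := by
        refine Finset.sum_congr rfl fun l _ => ?_
        rw [if_pos (hTE l)]
    _ = ∑ S ∈ (Finset.univ.filter (fun l => (T l).Nonempty)).image T,
          (if EqOn' lab S then M ^ (S.card - 1) else 0) := by
        rw [Finset.sum_image hinj]
    _ ≤ _ := by
        refine Finset.sum_le_sum_of_subset_of_nonneg ?_ ?_
        · intro S hS
          obtain ⟨l, hl, rfl⟩ := Finset.mem_image.1 hS
          rw [Finset.mem_erase, Finset.mem_powerset]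
          refine ⟨?_, Finset.filter_subset _ _⟩
          exact Finset.nonempty_iff_ne_empty.1 (Finset.mem_filter.1 hl).2
        · intro S _ _
          split_ifs
          · positivity
          · exact le_rfl

end

section

variable {V Λ J : Type*} [Fintype V] [DecidableEq V] [Fintype Λ] [DecidableEq Λ]

open Classical in
/-- the copy `c` is determined by the earlier copies -/
def Det {P : ℕ} (cp : J → Fin P) (S : V → Finset J) (c : Fin P) : Prop :=
  ∃ u, ∃ t ∈ S u, ∃ t' ∈ S u, cp t = c ∧ cp t' < c

open Classical in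
/-- the number of shifts with given classes -/
theorem card_shift {P q : ℕ} (cp : J → Fin P) (Z : Finset J) (lab : J → Fin q → Λ)
    (hinj : ∀ t ∈ Z, Function.Injective (lab t)) (S : V → Finset J) (hS : ∀ u, S u ⊆ Z) :
    ((Finset.univ.filter fun i : Fin P → Fin q =>
        ∀ u, EqOn' (fun t => lab t (i (cp t))) (S u)).card : ℝ)
      ≤ (q : ℝ) ^ (Finset.univ.filter fun c => ¬ Det cp S c).card := by
  have hprod : ∏ c : Fin P, (if Det cp S c then (1 : ℝ) else q)
      = (q : ℝ) ^ (Finset.univ.filter fun c => ¬ Det cp S c).card := by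
    rw [Finset.prod_ite, Finset.prod_const_one, one_mul, Finset.prod_const]
  rw [← hprod]
  have hdet : ∀ c, Det cp S c → ∃ tt : J × J, tt.1 ∈ Z ∧ (∃ u, tt.1 ∈ S u ∧ tt.2 ∈ S u) ∧
      cp tt.1 = c ∧ cp tt.2 < c := by
    rintro c ⟨u, t, ht, t', ht', h1, h2⟩
    exact ⟨(t, t'), hS _ ht, ⟨u, ht, ht'⟩, h1, h2⟩
  choose f hf1 hf2 hf3 hf4 using hdet
  let T : Fin P → (Fin P → Fin q) → Finset (Fin q) := fun c i =>
    if h : Det cp S c then
      Finset.univ.filter fun y => lab (f c h).1 y = lab (f c h).2 (i (cp (f c h).2))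
    else Finset.univ
  refine card_le_prod_real _ T _ ?_ ?_ ?_ ?_
  · intro c
    split_ifs
    · exact zero_le_one
    · exact Nat.cast_nonneg _
  · intro c i j hij
    simp only [T]
    by_cases h : Det cp S c
    · rw [dif_pos h, dif_pos h, hij _ (hf4 c h)]
    · rw [dif_neg h, dif_neg h]
  · intro c i
    simp only [T]
    by_cases h : Det cp S c
    · rw [dif_pos h, if_pos h]
      have h2 := hinj _ (hf1 c h)
      have : (Finset.univ.filter fun y =>
          lab (f c h).1 y = lab (f c h).2 (i (cp (f c h).2))).card ≤ 1 := by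
        rw [Finset.card_le_one]
        intro a ha b hb
        refine h2 ?_
        rw [(Finset.mem_filter.1 ha).2, (Finset.mem_filter.1 hb).2]
      exact_mod_cast this
    · rw [dif_neg h, if_neg h]
      simp
  · intro i hi c
    simp only [T]
    by_cases h : Det cp S c
    · rw [dif_pos h, Finset.mem_filter]
      refine ⟨Finset.mem_univ _, ?_⟩
      obtain ⟨u, h1, h2⟩ := hf2 c h
      have h4 := (Finset.mem_filter.1 hi).2 u _ h1 _ h2
      simp only [] at h4
      rw [hf3 c h] at h4
      exact h4
    · rw [dif_neg h]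
      exact Finset.mem_univ _

open Classical in
/-- the number of undetermined copies -/
theorem card_undet {P m : ℕ} (hm2 : 2 ≤ m) (cp : J → Fin P) (Z : Finset J)
    (hm : ∀ c, (Z.filter fun t => cp t = c).card = m) (v : J → V)
    (hdiff : ∀ t ∈ Z, ∀ t' ∈ Z, t ≠ t' → v t = v t' → cp t ≠ cp t')
    (hns : ∀ u, (Z.filter fun t => v t = u).card ≠ 1) (S : V → Finset J)
    (hS : ∀ u, S u ⊆ Z.filter fun t => v t = u) :
    2 * (Finset.univ.filter fun c => ¬ Det cp S c).card
      ≤ P + ∑ u, (((Z.filter fun t => v t = u).card - 1) - ((S u).card - 1)) := by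
  set L := ∑ u, (((Z.filter fun t => v t = u).card - 1) - ((S u).card - 1)) with hL
  set U := (Finset.univ.filter fun c => ¬ Det cp S c).card with hU
  set D := (Finset.univ.filter fun c => Det cp S c).card with hD
  have hUD : D + U = P := by
    rw [hU, hD, Finset.card_filter_add_card_filter_not, Finset.card_univ, Fintype.card_fin]
  -- counting marks by copies
  have hcnt : ∀ (Q : Fin P → Prop) [DecidablePred Q], (Z.filter fun t => Q (cp t)).card
      = m * (Finset.univ.filter fun c => Q c).card := by
    intro Q _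
    rw [Finset.card_eq_sum_card_fiberwise (f := cp) (t := Finset.univ.filter fun c => Q c)]
    · have : ∀ c ∈ Finset.univ.filter (fun c => Q c),
          ((Z.filter fun t => Q (cp t)).filter fun t => cp t = c).card = m := by
        intro c hc
        rw [← hm c, Finset.filter_filter]
        congr 1
        refine Finset.filter_congr fun t _ => ?_
        constructor
        · exact fun h => h.2
        · intro h
          exact ⟨by rw [h]; exact (Finset.mem_filter.1 hc).2, h⟩
      rw [Finset.sum_congr rfl this, Finset.sum_const, smul_eq_mul, mul_comm]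
    · intro t ht
      have := (Finset.mem_filter.1 (Finset.mem_coe.1 ht)).2
      simpa using this
  have hcnt2 : ∀ (Q : Fin P → Prop) [DecidablePred Q], (Z.filter fun t => Q (cp t)).card
      = ∑ u, ((Z.filter fun t => v t = u).filter fun t => Q (cp t)).card := by
    intro Q _
    rw [Finset.card_eq_sum_card_fiberwise (f := v) (t := Finset.univ)
      (fun _ _ => Finset.mem_coe.2 (Finset.mem_univ _))]
    refine Finset.sum_congr rfl fun u _ => ?_
    rw [Finset.filter_filter, Finset.filter_filter]
    congr 1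
    refine Finset.filter_congr fun t _ => ?_
    tauto
  have hu : ∀ u, ((Z.filter fun t => v t = u).filter fun t => ¬ Det cp S (cp t)).card
      ≤ ((Z.filter fun t => v t = u).filter fun t => Det cp S (cp t)).card
        + 2 * (((Z.filter fun t => v t = u).card - 1) - ((S u).card - 1)) := by
    intro u
    have h1 := Finset.card_filter_add_card_filter_not (s := Z.filter fun t => v t = u)
      (fun t => Det cp S (cp t))
    have h2 : (S u).card ≤ (Z.filter fun t => v t = u).card := Finset.card_le_card (hS u)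
    have h3 := hns u
    by_cases h4 : (S u).card ≤ 1
    · omega
    · have h5 : (S u).card - 1
          ≤ ((Z.filter fun t => v t = u).filter fun t => Det cp S (cp t)).card := by
        obtain ⟨t₀, ht₀, hmin⟩ := Finset.exists_min_image (S u) cp
          (Finset.card_pos.1 (by omega))
        rw [← Finset.card_erase_of_mem ht₀]
        refine Finset.card_le_card fun t ht => ?_
        obtain ⟨hne, htS⟩ := Finset.mem_erase.1 ht
        have h6 := hS u htS
        have h7 := hS u ht₀
        rw [Finset.mem_filter] at h6 h7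
        rw [Finset.mem_filter, Finset.mem_filter]
        refine ⟨h6, u, t, htS, t₀, ht₀, rfl, lt_of_le_of_ne (hmin t htS) ?_⟩
        exact fun h => hdiff t h6.1 t₀ h7.1 hne (by rw [h6.2, h7.2]) h.symm
      omega
  have hsum := Finset.sum_le_sum fun u (_ : u ∈ (Finset.univ : Finset V)) => hu u
  have e1 := (hcnt2 (fun c => ¬ Det cp S c)).symm.trans (hcnt (fun c => ¬ Det cp S c))
  have e2 := (hcnt2 (fun c => Det cp S c)).symm.trans (hcnt (fun c => Det cp S c))
  simp only [← hU, ← hD] at e1 e2
  rw [Finset.sum_add_distrib, ← Finset.mul_sum, ← hL, e1, e2] at hsum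
  have h8 : U ≤ D + L := by
    by_contra hc
    have h9 : D + L + 1 ≤ U := by omega
    have h10 : m * (D + L + 1) ≤ m * U := Nat.mul_le_mul_left _ h9
    have h11 : 2 * L ≤ m * L := Nat.mul_le_mul_right _ hm2
    nlinarith
  omega

open Classical in
/-- EXW -/
theorem exw {p q m : ℕ} (hq : 1 ≤ q) (hm2 : 2 ≤ m) (cp : J → Fin (2 * p)) (Z : Finset J)
    (lab : J → Fin q → Λ) (hinj : ∀ t ∈ Z, Function.Injective (lab t))
    (hqM : q ≤ Fintype.card Λ) (hm : ∀ c, (Z.filter fun t => cp t = c).card = m) (v : J → V)
    (hdiff : ∀ t ∈ Z, ∀ t' ∈ Z, t ≠ t' → v t = v t' → cp t ≠ cp t')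
    (hns : ∀ u, (Z.filter fun t => v t = u).card ≠ 1) :
    ∑ i : Fin (2 * p) → Fin q, |avg fun h : V → Λ =>
        ∏ t ∈ Z, mk (Fintype.card Λ : ℝ) (lab t (i (cp t))) (h (v t))|
      ≤ 2 ^ Z.card * (q : ℝ) ^ p *
        (Fintype.card Λ : ℝ) ^ (∑ u, ((Z.filter fun t => v t = u).card - 1)) := by
  set M : ℝ := (Fintype.card Λ : ℝ) with hM
  have hΛ : 1 ≤ Fintype.card Λ := hq.trans hqM
  have hM1 : 1 ≤ M := by rw [hM]; exact_mod_cast hΛ
  have hM0 : 0 < M := by linarith
  have hq1 : (1 : ℝ) ≤ q := by exact_mod_cast hq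
  have hqM' : (q : ℝ) ≤ M := by rw [hM]; exact_mod_cast hqM
  set blk : V → Finset J := fun u => Z.filter fun t => v t = u with hblk
  have h1 : ∀ i : Fin (2 * p) → Fin q, |avg fun h : V → Λ =>
        ∏ t ∈ Z, mk M (lab t (i (cp t))) (h (v t))|
      ≤ ∑ S ∈ Fintype.piFinset fun u => (blk u).powerset,
          ∏ u, (if EqOn' (fun t => lab t (i (cp t))) (S u) then M ^ ((S u).card - 1) else 0) := by
    intro i
    have h2 := exbZ (V := V) Z v (fun t l => mk M (lab t (i (cp t))) l)
    have h3 := Finset.prod_univ_sum (t := fun u => (blk u).powerset)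
      (f := fun u S => if EqOn' (fun t => lab t (i (cp t))) S then M ^ (S.card - 1) else 0)
    rw [h2, Finset.abs_prod, ← h3]
    refine Finset.prod_le_prod (fun u _ => abs_nonneg _) fun u _ => ?_
    refine (avg_abs _).trans ?_
    refine le_trans (le_of_eq ?_)
      (avg_prod_abs_mk_le_sum (blk u) (fun t => lab t (i (cp t))) hΛ)
    congr 1
    funext l
    rw [Finset.abs_prod]
  refine (Finset.sum_le_sum fun i _ => h1 i).trans ?_
  rw [Finset.sum_comm]
  have h3 : ∀ S ∈ Fintype.piFinset (fun u => (blk u).powerset),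
      ∑ i : Fin (2 * p) → Fin q,
        ∏ u, (if EqOn' (fun t => lab t (i (cp t))) (S u) then M ^ ((S u).card - 1) else 0)
      ≤ (q : ℝ) ^ p * M ^ (∑ u, ((blk u).card - 1)) := by
    intro S hS
    rw [Fintype.mem_piFinset] at hS
    have hS' : ∀ u, S u ⊆ blk u := fun u => Finset.mem_powerset.1 (hS u)
    have h4 : ∀ i : Fin (2 * p) → Fin q,
        ∏ u, (if EqOn' (fun t => lab t (i (cp t))) (S u) then M ^ ((S u).card - 1) else 0)
        = if ∀ u, EqOn' (fun t => lab t (i (cp t))) (S u) then
            M ^ (∑ u, ((S u).card - 1)) else 0 := by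
      intro i
      by_cases h : ∀ u, EqOn' (fun t => lab t (i (cp t))) (S u)
      · rw [if_pos h, ← Finset.prod_pow_eq_pow_sum]
        exact Finset.prod_congr rfl fun u _ => if_pos (h u)
      · rw [if_neg h]
        push Not at h
        obtain ⟨u, hu⟩ := h
        exact Finset.prod_eq_zero (Finset.mem_univ u) (if_neg hu)
    rw [Finset.sum_congr rfl fun i _ => h4 i, ← Finset.sum_filter, Finset.sum_const, nsmul_eq_mul]
    have h5 := card_shift cp Z lab hinj S fun u => (hS' u).trans (Finset.filter_subset _ _)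
    have h6 := card_undet hm2 cp Z hm v hdiff hns S hS'
    set U := (Finset.univ.filter fun c => ¬ Det cp S c).card with hU
    set L := ∑ u, (((blk u).card - 1) - ((S u).card - 1)) with hL
    have h7 : L + ∑ u, ((S u).card - 1) = ∑ u, ((blk u).card - 1) := by
      rw [hL, ← Finset.sum_add_distrib]
      refine Finset.sum_congr rfl fun u _ => ?_
      have := Finset.card_le_card (hS' u)
      omega
    have h8 : U ≤ p + L := by
      have : 2 * U ≤ 2 * p + L := h6
      omega
    rw [← h7, pow_add, ← mul_assoc]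
    refine mul_le_mul_of_nonneg_right (h5.trans ?_) (by positivity)
    calc (q : ℝ) ^ U ≤ (q : ℝ) ^ (p + L) := pow_le_pow_right₀ hq1 h8
      _ = (q : ℝ) ^ p * (q : ℝ) ^ L := pow_add _ _ _
      _ ≤ (q : ℝ) ^ p * M ^ L :=
          mul_le_mul_of_nonneg_left (pow_le_pow_left₀ (by linarith) hqM' _) (by positivity)
  refine (Finset.sum_le_sum h3).trans ?_
  rw [Finset.sum_const, nsmul_eq_mul, Fintype.card_piFinset]
  have h9 : ∏ u, ((blk u).powerset).card = 2 ^ Z.card := by
    simp only [Finset.card_powerset]
    rw [Finset.prod_pow_eq_pow_sum]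
    congr 1
    exact (Finset.card_eq_sum_card_fiberwise (f := v) (t := Finset.univ)
      (fun _ _ => Finset.mem_coe.2 (Finset.mem_univ _))).symm
  rw [h9]
  push_cast
  rw [mul_assoc]

end

end Pool.Agent.C4M.H58
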