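import Pool.Agent.Helper58_C4.Rev

/-! REV for a general index type with an injective rank. -/

set_option autoImplicit false

namespace Pool.Agent.C4M.H58

open Finset

/-- the value at the parent -/
def pvJ {V J : Type*} (par : J → Option J) (x : V) (v : J → V) (t : J) : V :=
  match par t with
  | none => x
  | some j => v j

/-- the index `t` is not fresh -/
def OldJ {V J : Type*} (rk : J → ℕ) (x : V) (v : J → V) (t : J) : Prop :=
  v t = x ∨ ∃ j, rk j < rk t ∧ v j = v t

/-- the index `t` is fresh and has a child whose value is known before `t` -/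
def BtJ {V J : Type*} (rk : J → ℕ) (par : J → Option J) (x : V) (v : J → V) (t : J) : Prop :=
  ¬ OldJ rk x v t ∧ ∃ c, par c = some t ∧ (v c = x ∨ ∃ j, rk j < rk t ∧ v j = v c)

/-- an enumeration of the index type in the order of the rank -/
theorem exists_enum {J : Type*} [Fintype J] (rk : J → ℕ) (hrk : Function.Injective rk) :
    ∃ e : J ≃ Fin (Fintype.card J), ∀ i j, e i < e j ↔ rk i < rk j := by
  classical
  let _ : LinearOrder J := LinearOrder.lift' rk hrk
  refine ⟨(Fintype.orderIsoFinOfCardEq J rfl).symm.toEquiv, fun i j => ?_⟩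
  have h := (Fintype.orderIsoFinOfCardEq J rfl).symm.lt_iff_lt (x := i) (y := j)
  exact h

open Classical in
/-- REV for a general index type -/
theorem revJ {V J : Type*} [Fintype V] [DecidableEq V] [Fintype J] (rk : J → ℕ)
    (hrk : Function.Injective rk) (par : J → Option J)
    (N : V → V → Prop) [DecidableRel N] (hsym : ∀ u w, N u w → N w u)
    (hC4 : ∀ u w, u ≠ w → ((Finset.univ.filter fun y => N u y ∧ N w y).card) ≤ 1)
    (nb : J → V → Finset V) (hnb : ∀ t u, ∀ y ∈ nb t u, N u y)
    (hpar : ∀ t j, par t = some j → rk j < rk t)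
    (s : ℝ) (hs : 1 ≤ s) (cap : J → ℝ) (hcap : ∀ t u, ((nb t u).card : ℝ) ≤ cap t)
    (hcaps : ∀ t, s ≤ cap t) (x : V) (S : Finset (J → V))
    (hS1 : ∀ v ∈ S, ∀ t, v t ∈ nb t (pvJ par x v t))
    (hS2 : ∀ v ∈ S, ∀ c t, par c = some t → v c ≠ pvJ par x v t) :
    ∑ v ∈ S, s ^ ((Finset.univ.filter fun t => OldJ rk x v t).card +
      (Finset.univ.filter fun t => BtJ rk par x v t).card)
      ≤ ((Fintype.card J : ℝ) + 1) ^ Fintype.card J * ∏ t, cap t := by
  obtain ⟨e, he⟩ := exists_enum rk hrk
  let par' : Fin (Fintype.card J) → Option (Fin (Fintype.card J)) :=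
    fun i => (par (e.symm i)).map e
  have hpv : ∀ (v : J → V) (i : Fin (Fintype.card J)),
      pv par' x (fun j => v (e.symm j)) i = pvJ par x v (e.symm i) := by
    intro v i
    simp only [pv, pvJ, par']
    rcases h : par (e.symm i) with _ | j
    · simp
    · simp
  have hpc : ∀ c t : Fin (Fintype.card J), par' c = some t ↔ par (e.symm c) = some (e.symm t) := by
    intro c t
    simp only [par']
    rcases h : par (e.symm c) with _ | j
    · simp
    · simp only [Option.map_some, Option.some.injEq]
      constructor
      · rintro rfl; simp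
      · rintro rfl; simp
  let F : (J → V) → (Fin (Fintype.card J) → V) := fun v j => v (e.symm j)
  have hFinj : Function.Injective F := by
    intro v w h
    funext t
    have := congrFun h (e t)
    simpa [F] using this
  have hold : ∀ v t, Old x (F v) t ↔ OldJ rk x v (e.symm t) := by
    intro v t
    simp only [Old, OldJ, F]
    refine or_congr Iff.rfl ?_
    constructor
    · rintro ⟨j, hj, h⟩
      refine ⟨e.symm j, ?_, h⟩
      rw [← he]; simpa using hj
    · rintro ⟨j, hj, h⟩
      refine ⟨e j, ?_, by simpa using h⟩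
      rw [← he] at hj; simpa using hj
  have hbt : ∀ v t, Bt par' x (F v) t ↔ BtJ rk par x v (e.symm t) := by
    intro v t
    simp only [Bt, BtJ, hold]
    refine and_congr Iff.rfl ?_
    constructor
    · rintro ⟨c, hc, h⟩
      refine ⟨e.symm c, (hpc c t).1 hc, ?_⟩
      rcases h with h | ⟨j, hj, h⟩
      · exact Or.inl h
      · refine Or.inr ⟨e.symm j, ?_, h⟩
        rw [← he]; simpa using hj
    · rintro ⟨c, hc, h⟩
      refine ⟨e c, (hpc _ _).2 (by simpa using hc), ?_⟩
      rcases h with h | ⟨j, hj, h⟩
      · left; simpa [F] using h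
      · refine Or.inr ⟨e j, ?_, by simpa [F] using h⟩
        rw [← he] at hj; simpa using hj
  have key := rev par' N hsym hC4 (fun i => nb (e.symm i)) (fun t u y hy => hnb _ _ _ hy)
    (fun t j h => by
      have h1 := (hpc t j).1 h
      have h2 := hpar _ _ h1
      rw [← he] at h2
      simpa using h2) s hs (fun i => cap (e.symm i)) (fun t u => hcap _ _) (fun t => hcaps _) x
    (S.map ⟨F, hFinj⟩)
    (fun v hv t => by
      obtain ⟨w, hw, rfl⟩ := Finset.mem_map.1 hv
      have := hS1 w hw (e.symm t)
      rw [← hpv] at this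
      exact this)
    (fun v hv c t h => by
      obtain ⟨w, hw, rfl⟩ := Finset.mem_map.1 hv
      have := hS2 w hw (e.symm c) (e.symm t) ((hpc c t).1 h)
      rw [← hpv] at this
      exact this)
  rw [Finset.sum_map] at key
  have h1 : ∏ i, cap (e.symm i) = ∏ t, cap t := Equiv.prod_comp e.symm cap
  rw [h1] at key
  refine le_trans (le_of_eq ?_) key
  refine Finset.sum_congr rfl fun v _ => ?_
  congr 1
  congr 1
  · refine Finset.card_bij (fun t _ => e t) ?_ ?_ ?_
    · intro t ht
      simp only [Finset.mem_filter, Finset.mem_univ, true_and] at ht ⊢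
      rw [Function.Embedding.coeFn_mk, hold]
      simpa using ht
    · intro a _ b _ h
      exact e.injective h
    · intro t ht
      simp only [Finset.mem_filter, Finset.mem_univ, true_and] at ht
      rw [Function.Embedding.coeFn_mk, hold] at ht
      exact ⟨e.symm t, by simpa using ht, by simp⟩
  · refine Finset.card_bij (fun t _ => e t) ?_ ?_ ?_
    · intro t ht
      simp only [Finset.mem_filter, Finset.mem_univ, true_and] at ht ⊢
      rw [Function.Embedding.coeFn_mk, hbt]
      simpa using ht
    · intro a _ b _ h
      exact e.injective h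
    · intro t ht
      simp only [Finset.mem_filter, Finset.mem_univ, true_and] at ht
      rw [Function.Embedding.coeFn_mk, hbt] at ht
      exact ⟨e.symm t, by simpa using ht, by simp⟩

end Pool.Agent.C4M.H58
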