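import Pool.Agent.C4M.Stmts
import Pool.Agent.Helper58_C4.RevJ
import Pool.Agent.Helper58_C4.Exw

/-! The modules CNT, REV, EXP, EXB, EXW of C4M. -/

set_option autoImplicit false
set_option linter.unusedSectionVars false

namespace Pool.Agent.C4M.H58

open Finset

/-- CNT -/
theorem cntS : CNTStmt := by
  classical
  intro V J _ _ _ _ rk hrk A c hc hA
  obtain ⟨e, he⟩ := exists_enum rk hrk
  let F : (J → V) → (Fin (Fintype.card J) → V) := fun v j => v (e.symm j)
  have hFinj : Function.Injective F := by
    intro v w h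
    funext t
    have := congrFun h (e t)
    simpa [F] using this
  let T : Fin (Fintype.card J) → (Fin (Fintype.card J) → V) → Finset V := fun i w =>
    (A.filter fun v => ∀ k, rk k < rk (e.symm i) → v k = w (e k)).image fun v => v (e.symm i)
  have key := card_le_prod_real (A.map ⟨F, hFinj⟩) T (fun i => c (e.symm i)) (fun i => hc _)
    (by
      intro i v w h
      have : ∀ k, rk k < rk (e.symm i) → v (e k) = w (e k) := by
        intro k hk
        refine h (e k) ?_
        have := (he k (e.symm i)).2 hk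
        simpa using this
      simp only [T]
      congr 1
      refine Finset.filter_congr fun u _ => ?_
      constructor
      · intro h1 k hk; rw [h1 k hk, this k hk]
      · intro h1 k hk; rw [h1 k hk, this k hk])
    (by
      intro i w
      have := hA (e.symm i) (fun k => w (e k))
      exact this)
    (by
      intro v hv i
      obtain ⟨w, hw, rfl⟩ := Finset.mem_map.1 hv
      simp only [T]
      refine Finset.mem_image.2 ⟨w, ?_, rfl⟩
      rw [Finset.mem_filter]
      refine ⟨hw, fun k _ => ?_⟩
      simp [F])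
  rw [Finset.card_map] at key
  rwa [Equiv.prod_comp e.symm c] at key

theorem ctr_eq {V J : Type} (x : V) (par : J → Option J) (v : J → V) (j : J) :
    ctr x par v j = pvJ par x v j := by
  unfold ctr pvJ
  rcases par j with _ | i <;> rfl

open Classical in
/-- REV -/
theorem revS : REVStmt := by
  intro V J _ _ _ _ N hN rk hrk par hpar x nb hnb cap s hs hcaps hcap
  have key := revJ rk hrk par (fun u w => w ∈ N u) (fun u w h => hN.symm u w h)
    (by
      intro u w h
      have := hN.c4 u w h
      refine le_trans (le_of_eq ?_) this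
      congr 1
      ext y
      simp)
    nb (fun t u y hy => hnb t u hy) hpar s hs cap hcap hcaps x
    (univ.filter (fun v : J → V => (∀ j, v j ∈ nb j (ctr x par v j)) ∧
        ∀ j u, par j = some u → v j ≠ ctr x par v u))
    (by
      intro v hv t
      have := (Finset.mem_filter.1 hv).2.1 t
      rwa [ctr_eq] at this)
    (by
      intro v hv c t h
      have := (Finset.mem_filter.1 hv).2.2 c t h
      rwa [ctr_eq] at this)
  have h1 : ∀ v : J → V, (NF rk x v).card
      = (Finset.univ.filter fun t => OldJ rk x v t).card := by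
    intro v
    unfold NF OldJ
    congr 1
    ext j
    simp
  have h2 : ∀ v : J → V, (BB rk par x v).card
      = (Finset.univ.filter fun t => BtJ rk par x v t).card := by
    intro v
    unfold BB BtJ
    congr 1
    ext j
    simp [NF, OldJ]
  have h3 : ∑ v ∈ univ.filter (fun v : J → V => (∀ j, v j ∈ nb j (ctr x par v j)) ∧
        ∀ j u, par j = some u → v j ≠ ctr x par v u),
      s ^ ((NF rk x v).card + (BB rk par x v).card)
      ≤ ((Fintype.card J : ℝ) + 1) ^ Fintype.card J * ∏ t, cap t := by
    refine le_trans (le_of_eq ?_) key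
    refine Finset.sum_congr rfl fun v _ => ?_
    rw [h1, h2]
  have h4 : ((Fintype.card J : ℝ) + 1) ^ Fintype.card J ≤ KREV (Fintype.card J) := by
    unfold KREV
    calc ((Fintype.card J : ℝ) + 1) ^ Fintype.card J
        ≤ ((Fintype.card J : ℝ) + 2) ^ Fintype.card J :=
          pow_le_pow_left₀ (by positivity) (by linarith) _
      _ ≤ ((Fintype.card J : ℝ) + 2) ^ (3 * Fintype.card J) :=
          pow_le_pow_right₀ (by
            have : (0 : ℝ) ≤ (Fintype.card J : ℝ) := Nat.cast_nonneg _
            linarith) (by omega)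
  have h5 : 0 ≤ ∏ t, cap t := Finset.prod_nonneg fun t _ =>
    (zero_le_one.trans hs).trans (hcaps t)
  refine le_trans (le_of_eq ?_) (h3.trans (mul_le_mul_of_nonneg_right h4 h5))
  refine Finset.sum_congr ?_ fun _ _ => rfl
  ext v
  simp

theorem mean_eq {V Λ : Type} [Fintype V] [DecidableEq V] [Fintype Λ] (f : (V → Λ) → ℝ) :
    mean f = avg f := by
  unfold mean avg
  rw [Fintype.card_fun]
  push_cast
  rfl

theorem mark_eq {Λ : Type} [Fintype Λ] [DecidableEq Λ] (l ℓ : Λ) :
    mark l ℓ = mk (Fintype.card Λ : ℝ) l ℓ := by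
  unfold mark mk
  split_ifs <;> ring

/-- EXP -/
theorem expS : EXPStmt := by
  intro V Λ J _ _ _ _ _ _ _ φ v
  rw [mean_eq, exb]
  rfl

theorem block_bound {Λ J : Type} [Fintype Λ] [DecidableEq Λ] [Fintype J] [DecidableEq J]
    (hΛ : 1 ≤ Fintype.card Λ) (B : ℝ) (hB : 0 ≤ B) (kind : J → Kind) (φ : J → Λ → ℝ)
    (hφ : FnOk kind B φ) (T : Finset J) :
    |avg fun l => ∏ j ∈ T, φ j l| ≤ blk (Fintype.card Λ : ℝ) B
      (T.filter fun j => kind j = Kind.zeta).card (T.filter fun j => kind j = Kind.phi).card := by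
  set M : ℝ := (Fintype.card Λ : ℝ) with hM
  have hM1 : 1 ≤ M := by rw [hM]; exact_mod_cast hΛ
  have hM0 : 0 < M := by linarith
  set Z := T.filter fun j => kind j = Kind.zeta with hZ
  set Q := T.filter fun j => kind j = Kind.phi with hQ
  have hdisj : Disjoint Z Q := by
    rw [Finset.disjoint_left]
    intro j h1 h2
    rw [hZ, Finset.mem_filter] at h1
    rw [hQ, Finset.mem_filter] at h2
    rw [h1.2] at h2
    exact absurd h2.2 (by decide)
  have hprod : ∀ l, ∏ j ∈ T, φ j l = ∏ j ∈ Z ∪ Q, φ j l := by
    intro l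
    symm
    refine Finset.prod_subset ?_ ?_
    · exact Finset.union_subset (Finset.filter_subset _ _) (Finset.filter_subset _ _)
    · intro j hj hj'
      refine hφ.none j ?_ l
      rcases hk : kind j with _ | _ | _
      · rfl
      · exact absurd (Finset.mem_union_left _ (Finset.mem_filter.2 ⟨hj, hk⟩)) hj'
      · exact absurd (Finset.mem_union_right _ (Finset.mem_filter.2 ⟨hj, hk⟩)) hj'
  simp only [hprod]
  unfold blk
  by_cases h1 : Z.card + Q.card = 1
  · rw [if_pos h1]
    have h2 : (Z ∪ Q).card = 1 := by rw [Finset.card_union_of_disjoint hdisj]; exact h1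
    obtain ⟨j, hj⟩ := Finset.card_eq_one.1 h2
    rw [hj]
    simp only [Finset.prod_singleton]
    have hj' : j ∈ Z ∪ Q := by rw [hj]; exact Finset.mem_singleton_self j
    have h3 : avg (φ j) = 0 := by
      rcases Finset.mem_union.1 hj' with h | h
      · obtain ⟨l, hl⟩ := hφ.zeta j (Finset.mem_filter.1 h).2
        have : φ j = mk M l := by
          funext ℓ
          rw [hl, mark_eq]
        rw [this]
        exact avg_mk l
      · unfold avg
        rw [hφ.phi0 j (Finset.mem_filter.1 h).2]
        simp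
    show |avg (φ j)| ≤ 0
    rw [h3]
    simp
  · rw [if_neg h1]
    have hexl : ∀ j, ∃ l : Λ, kind j = Kind.zeta → ∀ ℓ, φ j ℓ = mark l ℓ := by
      intro j
      by_cases hk : kind j = Kind.zeta
      · obtain ⟨l, hl⟩ := hφ.zeta j hk
        exact ⟨l, fun _ => hl⟩
      · obtain ⟨l⟩ : Nonempty Λ := Fintype.card_pos_iff.1 hΛ
        exact ⟨l, fun h => absurd h hk⟩
    choose lab hlab using hexl
    have h2 : ∀ l, |∏ j ∈ Z ∪ Q, φ j l|
        ≤ (B * M) ^ Q.card * ∏ t ∈ Z, |mk M (lab t) l| := by
      intro l
      rw [Finset.prod_union hdisj, abs_mul, Finset.abs_prod, Finset.abs_prod, mul_comm]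
      refine mul_le_mul ?_ (le_of_eq ?_) (Finset.prod_nonneg fun _ _ => abs_nonneg _)
        (by positivity)
      · rw [← Finset.prod_const]
        refine Finset.prod_le_prod (fun _ _ => abs_nonneg _) fun j hj => ?_
        exact hφ.phi j (Finset.mem_filter.1 hj).2 l
      · refine Finset.prod_congr rfl fun j hj => ?_
        rw [hlab j (Finset.mem_filter.1 hj).2, mark_eq]
    have h3 : |avg fun l => ∏ j ∈ Z ∪ Q, φ j l|
        ≤ (B * M) ^ Q.card * avg fun l => ∏ t ∈ Z, |mk M (lab t) l| := by
      refine (avg_abs _).trans ((avg_mono h2).trans ?_)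
      rw [avg_mul_left]
    refine h3.trans ?_
    have hBM : 0 ≤ (B * M) ^ Q.card := by positivity
    by_cases h4 : Z.card = 0
    · rw [if_pos h4]
      have h5 : Z = ∅ := Finset.card_eq_zero.1 h4
      rw [h5]
      simp only [Finset.prod_empty]
      have : Nonempty Λ := Fintype.card_pos_iff.1 hΛ
      rw [avg_const, mul_one]
    · rw [if_neg h4, mul_comm]
      refine mul_le_mul_of_nonneg_right ?_ hBM
      have h6 : 1 ≤ Z.card := by omega
      refine (avg_prod_abs_mk_le Z lab Z.card h6
        (fun l => Finset.card_le_card (Finset.filter_subset _ _)) hΛ).trans ?_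
      rw [← hM]
      refine mul_le_mul_of_nonneg_right ?_ (by positivity)
      have : Z.card + 1 ≤ 2 ^ Z.card := Nat.succ_le_of_lt Nat.lt_two_pow_self
      exact_mod_cast this

theorem cnt_eq {V J : Type} [Fintype J] [DecidableEq V] (kind : J → Kind) (v : J → V)
    (k : Kind) (u : V) :
    cnt kind v k u = ((univ.filter fun j => v j = u).filter fun j => kind j = k).card := by
  unfold cnt
  rw [Finset.filter_filter]

/-- EXB -/
theorem exbS : EXBStmt := by
  intro V Λ J _ _ _ _ _ _ hΛ B hB kind φ hφ v
  rw [mean_eq, exb_abs]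
  refine Finset.prod_le_prod (fun _ _ => abs_nonneg _) fun u _ => ?_
  rw [cnt_eq, cnt_eq]
  exact block_bound hΛ B hB kind φ hφ _

/-- EXW -/
theorem exwS : EXWStmt := by
  classical
  intro V Λ _ _ _ _ n p q hq hqM kind t1 t2 h12 hkind hphi v hv φ hφ1 hφ2
  set M : ℝ := (Fintype.card Λ : ℝ) with hM
  have hΛ : 1 ≤ Fintype.card Λ := hq.trans hqM
  -- the labels
  have hexl : ∀ t, ∃ l : Fin q → Λ, kind t = Kind.zeta →
      (Function.Injective l ∧ ∀ i ℓ, φ i t ℓ = mark (l i) ℓ) := by
    intro t
    by_cases hk : kind t = Kind.zeta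
    · obtain ⟨l, hl⟩ := hφ2 t hk
      exact ⟨l, fun _ => hl⟩
    · obtain ⟨l⟩ : Nonempty Λ := Fintype.card_pos_iff.1 hΛ
      exact ⟨fun _ => l, fun h => absurd h hk⟩
  choose lab hlab using hexl
  set Z : Finset (Fin (2 * p) × Fin n) := univ.filter fun j => kind j.2 = Kind.zeta with hZ
  have hprod : ∀ (i : Fin (2 * p) → Fin q) (h : V → Λ),
      ∏ j : Fin (2 * p) × Fin n, φ (i j.1) j.2 (h (v j))
        = ∏ j ∈ Z, mk M (lab j.2 (i j.1)) (h (v j)) := by
    intro i h
    rw [hZ, Finset.prod_filter]
    refine Finset.prod_congr rfl fun j _ => ?_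
    split_ifs with hk
    · rw [(hlab j.2 hk).2, mark_eq]
    · refine hφ1 _ _ ?_ _
      rcases hk' : kind j.2 with _ | _ | _
      · rfl
      · exact absurd hk' hk
      · exact absurd hk' (hphi _)
  have hcz : ∀ u, cnt (fun j : Fin (2 * p) × Fin n => kind j.2) v Kind.zeta u
      = (Z.filter fun t => v t = u).card := by
    intro u
    unfold cnt
    rw [hZ, Finset.filter_filter]
    congr 1
    refine Finset.filter_congr fun j _ => ?_
    tauto
  have hcp : ∀ u, cnt (fun j : Fin (2 * p) × Fin n => kind j.2) v Kind.phi u = 0 := by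
    intro u
    unfold cnt
    rw [Finset.card_eq_zero, Finset.filter_eq_empty_iff]
    intro j _ h
    exact hphi _ h.2
  simp only [hprod, hcz, hcp, mean_eq]
  have hblk : ∀ m, blk M 0 m 0 = if m = 1 then 0 else 2 ^ m * M ^ (m - 1) := by
    intro m
    unfold blk
    rw [Nat.add_zero]
    by_cases h1 : m = 1
    · rw [if_pos h1, if_pos h1]
    · rw [if_neg h1, if_neg h1]
      by_cases h0 : m = 0
      · rw [if_pos h0, h0]; simp
      · rw [if_neg h0]; simp
  simp only [hblk]
  by_cases hs : ∀ u, (Z.filter fun t => v t = u).card ≠ 1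
  · have hcopy : ∀ c : Fin (2 * p), (Z.filter fun t => t.1 = c).card = 2 := by
      intro c
      have : (Z.filter fun t => t.1 = c) = {(c, t1), (c, t2)} := by
        ext ⟨c', t⟩
        simp only [hZ, Finset.mem_filter, Finset.mem_univ, true_and, Finset.mem_insert,
          Finset.mem_singleton, Prod.mk.injEq, hkind]
        tauto
      rw [this, Finset.card_pair]
      simp [h12]
    have hdiff : ∀ t ∈ Z, ∀ t' ∈ Z, t ≠ t' → v t = v t' → t.1 ≠ t'.1 := by
      rintro ⟨c, t⟩ ht ⟨c', t'⟩ ht' hne hvv hcc
      simp only [] at hcc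
      subst hcc
      rw [hZ, Finset.mem_filter] at ht ht'
      have h1 := (hkind t).1 ht.2
      have h2 := (hkind t').1 ht'.2
      rcases h1 with rfl | rfl <;> rcases h2 with rfl | rfl
      · exact hne rfl
      · exact hv c hvv
      · exact hv c hvv.symm
      · exact hne rfl
    have key := exw (p := p) (q := q) (m := 2) hq le_rfl
      (fun j : Fin (2 * p) × Fin n => j.1) Z
      (fun j => lab j.2) (fun t ht => (hlab t.2 (Finset.mem_filter.1 ht).2).1) hqM hcopy v
      hdiff hs
    refine key.trans (le_of_eq ?_)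
    have h3 : ∏ u, (if (Z.filter fun t => v t = u).card = 1 then (0 : ℝ)
        else 2 ^ (Z.filter fun t => v t = u).card * M ^ ((Z.filter fun t => v t = u).card - 1))
        = 2 ^ Z.card * M ^ (∑ u, ((Z.filter fun t => v t = u).card - 1)) := by
      rw [← Finset.prod_pow_eq_pow_sum,
        Finset.card_eq_sum_card_fiberwise (f := v) (t := Finset.univ)
          (fun _ _ => Finset.mem_coe.2 (Finset.mem_univ _)),
        ← Finset.prod_pow_eq_pow_sum, ← Finset.prod_mul_distrib]
      refine Finset.prod_congr rfl fun u _ => ?_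
      rw [if_neg (hs u)]
    rw [h3]
    ring
  · push Not at hs
    obtain ⟨u, hu⟩ := hs
    have h3 : ∏ u, (if (Z.filter fun t => v t = u).card = 1 then (0 : ℝ)
        else 2 ^ (Z.filter fun t => v t = u).card * M ^ ((Z.filter fun t => v t = u).card - 1))
        = 0 := Finset.prod_eq_zero (Finset.mem_univ u) (if_pos hu)
    rw [h3, mul_zero]
    refine le_of_eq (Finset.sum_eq_zero fun i _ => ?_)
    rw [abs_eq_zero, exbZ (V := V) Z v (fun t l => mk M (lab t.2 (i t.1)) l)]
    refine Finset.prod_eq_zero (Finset.mem_univ u) ?_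
    obtain ⟨j, hj⟩ := Finset.card_eq_one.1 hu
    rw [hj]
    simp only [Finset.prod_singleton]
    exact avg_mk _

end Pool.Agent.C4M.H58
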