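import Pool.Agent.Helper53_C4W.Stm2

/-! CHF: conditional Chernoff bounds. -/

set_option autoImplicit false
set_option linter.unusedSectionVars false

open scoped BigOperators Classical

noncomputable section

namespace Pool.Agent.C4W.H58

variable {V α : Type} [Fintype V] [Fintype α] [Nonempty α]

theorem card_pos' : 0 < (Fintype.card α : ℝ) := by
  exact_mod_cast Fintype.card_pos

/-- one vertex -/
theorem one_vertex (lam : ℝ) (S : Finset α) :
    ∑ a : α, Real.exp (lam * (if a ∈ S then 1 else 0))
      ≤ Fintype.card α * Real.exp ((Real.exp lam - 1) * ((S.card : ℝ) / Fintype.card α)) := by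
  have hc : 0 < (Fintype.card α : ℝ) := card_pos'
  have h1 : ∑ a : α, Real.exp (lam * (if a ∈ S then 1 else 0))
      = Fintype.card α + (Real.exp lam - 1) * S.card := by
    have h2 : ∀ a : α, Real.exp (lam * (if a ∈ S then 1 else 0))
        = 1 + (Real.exp lam - 1) * (if a ∈ S then 1 else 0) := by
      intro a
      split_ifs
      · rw [mul_one, mul_one]; ring
      · simp
    simp only [h2]
    rw [Finset.sum_add_distrib, ← Finset.mul_sum]
    congr 1
    · simp
    · congr 1
      simp
  rw [h1]
  have h3 := Real.add_one_le_exp ((Real.exp lam - 1) * ((S.card : ℝ) / Fintype.card α))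
  calc (Fintype.card α : ℝ) + (Real.exp lam - 1) * S.card
      = Fintype.card α * ((Real.exp lam - 1) * ((S.card : ℝ) / Fintype.card α) + 1) := by
        field_simp
        ring
    _ ≤ _ := mul_le_mul_of_nonneg_left h3 hc.le

/-- the exponential moment -/
theorem moment (W : Finset V) (B : (V → α) → V → Finset α)
    (hB : ∀ ω ω' : V → α, (∀ v ∈ W, ω v = ω' v) → B ω = B ω') (lam : ℝ) :
    ∑ ω : V → α, Real.exp (lam * cntW W B ω - (Real.exp lam - 1) * muW W B ω)
      ≤ (Fintype.card α : ℝ) ^ Fintype.card V := by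
  obtain ⟨a0⟩ : Nonempty α := inferInstance
  have hc : 0 < (Fintype.card α : ℝ) := card_pos'
  let e := Equiv.piEquivPiSubtypeProd (fun v => v ∈ W) (fun _ : V => α)
  rw [← Equiv.sum_comp e.symm, Fintype.sum_prod_type]
  have hin : ∀ a b v (h : v ∈ W), e.symm (a, b) v = a ⟨v, h⟩ := by
    intro a b v h
    simp [e, Equiv.piEquivPiSubtypeProd, h]
  have hout : ∀ a b v (h : v ∉ W), e.symm (a, b) v = b ⟨v, h⟩ := by
    intro a b v h
    simp [e, Equiv.piEquivPiSubtypeProd, h]
  have key : ∀ a : {v // v ∈ W} → α,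
      ∑ b : {v // v ∉ W} → α, Real.exp (lam * cntW W B (e.symm (a, b))
        - (Real.exp lam - 1) * muW W B (e.symm (a, b)))
      ≤ (Fintype.card α : ℝ) ^ Fintype.card {v // v ∉ W} := by
    intro a
    set B' : V → Finset α := B (e.symm (a, fun _ => a0)) with hB'
    have hBb : ∀ b, B (e.symm (a, b)) = B' := by
      intro b
      refine hB _ _ fun v hv => ?_
      rw [hin a b v hv, hin a _ v hv]
    have hcnt : ∀ b : {v // v ∉ W} → α, (cntW W B (e.symm (a, b)) : ℝ)
        = ∑ v : {v // v ∉ W}, (if b v ∈ B' v.1 then 1 else 0) := by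
      intro b
      unfold cntW
      rw [hBb]
      have h1 : (Finset.univ.filter fun v => v ∉ W ∧ e.symm (a, b) v ∈ B' v)
          = (Finset.univ.filter fun v : {v // v ∉ W} => b v ∈ B' v.1).map
            (Function.Embedding.subtype _) := by
        ext v
        simp only [Finset.mem_filter, Finset.mem_univ, true_and, Finset.mem_map,
          Function.Embedding.coe_subtype, Subtype.exists, exists_and_right, exists_eq_right]
        constructor
        · rintro ⟨h, h2⟩
          refine ⟨h, ?_⟩
          rwa [hout a b v h] at h2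
        · rintro ⟨h, h2⟩
          refine ⟨h, ?_⟩
          rwa [hout a b v h]
      rw [h1, Finset.card_map, Finset.card_filter]
      push_cast
      rfl
    have hmu : ∀ b, muW W B (e.symm (a, b))
        = ∑ v : {v // v ∉ W}, ((B' v.1).card : ℝ) / Fintype.card α := by
      intro b
      unfold muW
      rw [hBb]
      exact (Finset.sum_subtype (Finset.univ.filter fun v => v ∉ W)
        (fun v => by simp) (fun v => ((B' v).card : ℝ) / Fintype.card α))
    have hterm : ∀ b : {v // v ∉ W} → α, Real.exp (lam * cntW W B (e.symm (a, b))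
        - (Real.exp lam - 1) * muW W B (e.symm (a, b)))
        = Real.exp (-((Real.exp lam - 1) * ∑ v : {v // v ∉ W}, ((B' v.1).card : ℝ) / Fintype.card α))
          * ∏ v : {v // v ∉ W}, Real.exp (lam * (if b v ∈ B' v.1 then 1 else 0)) := by
      intro b
      rw [hcnt, hmu, ← Real.exp_sum, ← Real.exp_add, ← Finset.mul_sum]
      congr 1
      ring
    simp only [hterm]
    rw [← Finset.mul_sum]
    have h2 : ∑ b : {v // v ∉ W} → α, ∏ v : {v // v ∉ W},
        Real.exp (lam * (if b v ∈ B' v.1 then 1 else 0))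
        = ∏ v : {v // v ∉ W}, ∑ x : α, Real.exp (lam * (if x ∈ B' v.1 then 1 else 0)) := by
      rw [Finset.prod_univ_sum, Fintype.piFinset_univ]
    rw [h2]
    have h3 : ∏ v : {v // v ∉ W}, ∑ x : α, Real.exp (lam * (if x ∈ B' v.1 then 1 else 0))
        ≤ ∏ v : {v // v ∉ W}, (Fintype.card α *
          Real.exp ((Real.exp lam - 1) * (((B' v.1).card : ℝ) / Fintype.card α))) :=
      Finset.prod_le_prod (fun v _ => Finset.sum_nonneg fun _ _ => (Real.exp_pos _).le)
        fun v _ => one_vertex lam (B' v.1)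
    have h4 : ∏ v : {v // v ∉ W}, ((Fintype.card α : ℝ) *
          Real.exp ((Real.exp lam - 1) * (((B' v.1).card : ℝ) / Fintype.card α)))
        = (Fintype.card α : ℝ) ^ Fintype.card {v // v ∉ W} * Real.exp ((Real.exp lam - 1) *
            ∑ v : {v // v ∉ W}, ((B' v.1).card : ℝ) / Fintype.card α) := by
      rw [Finset.prod_mul_distrib, Finset.prod_const, Finset.card_univ, ← Real.exp_sum,
        ← Finset.mul_sum]
    refine (mul_le_mul_of_nonneg_left (h3.trans (le_of_eq h4)) (Real.exp_pos _).le).trans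
      (le_of_eq ?_)
    rw [mul_left_comm, ← Real.exp_add, neg_add_cancel, Real.exp_zero, mul_one]
  refine (Finset.sum_le_sum fun a _ => key a).trans (le_of_eq ?_)
  rw [Finset.sum_const, Finset.card_univ, Fintype.card_fun, nsmul_eq_mul]
  push_cast
  rw [← pow_add]
  congr 1
  rw [← Fintype.card_sum]
  exact Fintype.card_congr (Equiv.sumCompl fun v => v ∈ W)

/-- Markov for the exponential moment -/
theorem chf_gen (W : Finset V) (B : (V → α) → V → Finset α)
    (hB : ∀ ω ω' : V → α, (∀ v ∈ W, ω v = ω' v) → B ω = B ω') (lam : ℝ) (P : Finset (V → α))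
    (x : ℝ) (hP : ∀ ω ∈ P, x ≤ lam * cntW W B ω - (Real.exp lam - 1) * muW W B ω) :
    (P.card : ℝ) ≤ Real.exp (-x) * (Fintype.card α : ℝ) ^ Fintype.card V := by
  have h1 : (P.card : ℝ) * Real.exp x
      ≤ ∑ ω : V → α, Real.exp (lam * cntW W B ω - (Real.exp lam - 1) * muW W B ω) := by
    calc (P.card : ℝ) * Real.exp x = ∑ ω ∈ P, Real.exp x := by
          rw [Finset.sum_const, nsmul_eq_mul]
      _ ≤ ∑ ω ∈ P, Real.exp (lam * cntW W B ω - (Real.exp lam - 1) * muW W B ω) :=
          Finset.sum_le_sum fun ω hω => Real.exp_le_exp.2 (hP ω hω)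
      _ ≤ _ := Finset.sum_le_sum_of_subset_of_nonneg (Finset.subset_univ P)
          fun _ _ _ => (Real.exp_pos _).le
  have h2 := h1.trans (moment W B hB lam)
  rw [Real.exp_neg, inv_mul_eq_div, le_div_iff₀ (Real.exp_pos x)]
  exact h2

theorem muW_nonneg (W : Finset V) (B : (V → α) → V → Finset α) (ω : V → α) : 0 ≤ muW W B ω :=
  Finset.sum_nonneg fun _ _ => div_nonneg (Nat.cast_nonneg _) (Nat.cast_nonneg _)

theorem exp_quad {x : ℝ} (h : |x| ≤ 1) : Real.exp x - 1 ≤ x + x ^ 2 := by
  have h1 := Real.abs_exp_sub_one_sub_id_le h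
  have h2 := (abs_le.1 h1).2
  linarith

/-- CHF -/
theorem chf : CHFStmt := by
  intro V α _ _ _ W B hB P
  refine ⟨?_, ?_⟩
  · intro t ht hP
    refine chf_gen W B hB 1 P t fun ω hω => ?_
    have h1 := hP ω hω
    have h2 := muW_nonneg W B ω
    have h3 : Real.exp 1 ≤ 3 := by
      have := Real.exp_one_lt_d9
      linarith
    nlinarith
  · intro m t hm ht htm hP
    set P1 := P.filter fun ω => muW W B ω + t ≤ cntW W B ω with hP1
    set P2 := P.filter fun ω => (cntW W B ω : ℝ) ≤ muW W B ω - t with hP2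
    have hcov : P ⊆ P1 ∪ P2 := by
      intro ω hω
      have h1 := (hP ω hω).2
      rcases le_abs.1 h1 with h | h
      · exact Finset.mem_union_left _ (Finset.mem_filter.2 ⟨hω, by linarith⟩)
      · exact Finset.mem_union_right _ (Finset.mem_filter.2 ⟨hω, by linarith⟩)
    set lam : ℝ := t / (2 * m) with hlam
    have hlam0 : 0 ≤ lam := by positivity
    have hlam1 : lam ≤ 1 := by
      rw [hlam, div_le_one (by positivity)]
      linarith
    have hval : lam * t - lam ^ 2 * m = t ^ 2 / (4 * m) := by
      rw [hlam]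
      field_simp
      ring
    have h1 : (P1.card : ℝ) ≤ Real.exp (-(t ^ 2 / (4 * m))) *
        (Fintype.card α : ℝ) ^ Fintype.card V := by
      refine chf_gen W B hB lam P1 _ fun ω hω => ?_
      have h2 := (Finset.mem_filter.1 hω).2
      have h3 := (hP ω (Finset.mem_filter.1 hω).1).1
      have h4 := muW_nonneg W B ω
      have h5 := exp_quad (x := lam) (by rw [abs_of_nonneg hlam0]; exact hlam1)
      rw [← hval]
      have h6 : lam * (muW W B ω + t) ≤ lam * cntW W B ω := mul_le_mul_of_nonneg_left h2 hlam0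
      have h7 : (Real.exp lam - 1) * muW W B ω ≤ (lam + lam ^ 2) * muW W B ω :=
        mul_le_mul_of_nonneg_right h5 h4
      have h8 : lam ^ 2 * muW W B ω ≤ lam ^ 2 * m := mul_le_mul_of_nonneg_left h3 (sq_nonneg _)
      nlinarith
    have h2 : (P2.card : ℝ) ≤ Real.exp (-(t ^ 2 / (4 * m))) *
        (Fintype.card α : ℝ) ^ Fintype.card V := by
      refine chf_gen W B hB (-lam) P2 _ fun ω hω => ?_
      have h2 := (Finset.mem_filter.1 hω).2
      have h3 := (hP ω (Finset.mem_filter.1 hω).1).1
      have h4 := muW_nonneg W B ω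
      have h5 := exp_quad (x := -lam) (by rw [abs_neg, abs_of_nonneg hlam0]; exact hlam1)
      rw [← hval]
      have h6 : lam * cntW W B ω ≤ lam * (muW W B ω - t) := mul_le_mul_of_nonneg_left h2 hlam0
      have h7 : (Real.exp (-lam) - 1) * muW W B ω ≤ (-lam + (-lam) ^ 2) * muW W B ω :=
        mul_le_mul_of_nonneg_right h5 h4
      have h8 : lam ^ 2 * muW W B ω ≤ lam ^ 2 * m := mul_le_mul_of_nonneg_left h3 (sq_nonneg _)
      nlinarith
    have h3 : (P.card : ℝ) ≤ (P1.card : ℝ) + P2.card := by
      have := (Finset.card_le_card hcov).trans (Finset.card_union_le _ _)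
      exact_mod_cast this
    linarith

end Pool.Agent.C4W.H58
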