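import Pool.Agent.Helper58_C4.Flo
import Pool.Agent.Helper53_C4W.Stm

/-! FLO: the statement. -/

set_option autoImplicit false

open scoped BigOperators Classical

noncomputable section

namespace Pool.Agent.C4W.H58

/-- FLO -/
theorem flo : FLOStmt := by
  intro V _ F w hw
  let r : F → V := fun i => i.1.1
  let c : F → V := fun i => i.1.2
  obtain ⟨g, hg01, hg⟩ := round r c (fun i : F => w i.1) (fun i => hw i.1 i.2)
  have hsl : ∀ (f : V × V → ℝ) (x : V), sm r c (fun i : F => f i.1) (Sum.inl x)
      = ∑ e ∈ F.filter (fun e => e.1 = x), f e := by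
    intro f x
    unfold sm inc
    rw [Finset.sum_filter, Finset.sum_filter]
    exact Finset.sum_coe_sort F (fun e => if e.1 = x then f e else 0)
  have hsr : ∀ (f : V × V → ℝ) (x : V), sm r c (fun i : F => f i.1) (Sum.inr x)
      = ∑ e ∈ F.filter (fun e => e.2 = x), f e := by
    intro f x
    unfold sm inc
    rw [Finset.sum_filter, Finset.sum_filter]
    exact Finset.sum_coe_sort F (fun e => if e.2 = x then f e else 0)
  -- the weight as a function on pairs
  set f : V × V → ℝ := fun e => if h : e ∈ F then g ⟨e, h⟩ else 0 with hf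
  have hgf : g = fun i : F => f i.1 := by
    funext i
    simp only [hf, i.2, dif_pos]
  set G : Finset (V × V) := F.filter fun e => f e = 1 with hG
  have hf01 : ∀ e ∈ F, f e = if f e = 1 then 1 else 0 := by
    intro e he
    have h1 : f e = g ⟨e, he⟩ := by simp only [hf, he, dif_pos]
    rcases hg01 ⟨e, he⟩ with h | h
    · rw [h1, h]; simp
    · rw [h1, h]; simp
  have hcardl : ∀ x, ((od G x : ℕ) : ℝ) = sm r c g (Sum.inl x) := by
    intro x
    rw [hgf, hsl, od, hG, Finset.filter_filter]
    rw [Finset.sum_congr rfl fun e he => hf01 e (Finset.mem_filter.1 he).1, Finset.sum_ite,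
      Finset.sum_const, Finset.sum_const_zero, add_zero, nsmul_eq_mul, mul_one,
      Finset.filter_filter]
    congr 1
    congr 1
    refine Finset.filter_congr fun e _ => ?_
    tauto
  have hcardr : ∀ x, ((idg G x : ℕ) : ℝ) = sm r c g (Sum.inr x) := by
    intro x
    rw [hgf, hsr, idg, hG, Finset.filter_filter]
    rw [Finset.sum_congr rfl fun e he => hf01 e (Finset.mem_filter.1 he).1, Finset.sum_ite,
      Finset.sum_const, Finset.sum_const_zero, add_zero, nsmul_eq_mul, mul_one,
      Finset.filter_filter]
    congr 1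
    congr 1
    refine Finset.filter_congr fun e _ => ?_
    tauto
  refine ⟨G, Finset.filter_subset _ _, fun x => ?_, fun y => ?_⟩
  · have h1 := hg (Sum.inl x)
    rw [← hcardl, hsl w x] at h1
    exact ⟨by exact_mod_cast h1.1, by exact_mod_cast h1.2⟩
  · have h1 := hg (Sum.inr y)
    rw [← hcardr, hsr w y] at h1
    exact ⟨by exact_mod_cast h1.1, by exact_mod_cast h1.2⟩

end Pool.Agent.C4W.H58
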