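import Pool.Agent.Helper53_C4W.Stm2
import Pool.Agent.C4M.Prob

/-! ZCH: choice of the special sets. -/

set_option autoImplicit false
set_option linter.unusedSectionVars false

open scoped BigOperators Classical
open Finset

noncomputable section

namespace Pool.Agent.C4W.H58

open Pool.Agent.LLLA

theorem exp_small (a e b : ℝ) (ha : 0 < a) (he : 0 < e) :
    ∃ k0 : ℝ, ∀ k : ℝ, k0 ≤ k → Real.exp (-(a * k ^ e)) ≤ k ^ (-b) := by
  have h1 := isLittleO_exp_neg_mul_rpow_atTop ha (-b / e)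
  have h2 := h1.bound (c := 1) one_pos
  have h3 := (tendsto_rpow_atTop he).eventually h2
  have h4 := h3.and (Filter.eventually_gt_atTop (0 : ℝ))
  obtain ⟨k0, hk0⟩ := Filter.eventually_atTop.1 h4
  refine ⟨k0, fun k hk => ?_⟩
  obtain ⟨h5, h6⟩ := hk0 k hk
  rw [Real.norm_eq_abs, Real.abs_exp, one_mul, Real.norm_eq_abs,
    abs_of_nonneg (Real.rpow_nonneg (Real.rpow_nonneg h6.le _) _), ← Real.rpow_mul h6.le] at h5
  have h7 : e * (-b / e) = -b := by field_simp
  rw [h7] at h5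
  rw [← neg_mul]
  exact h5

/-- slots -/
abbrev Sl (M : ℕ) := Bool × Fin 40 × ZMod M

variable {V : Type} [Fintype V] {M : ℕ} [NeZero M]

/-- weight of a slot -/
def wv (c : ℝ) (k : ℕ) (Q : Finset V) (B : Finset (ZMod M)) (I : ZMod M → Finset (ZMod M)) (v : V)
    (sl : Sl M) : ℝ :=
  if v ∉ Q ∧ sl.2.2 ∈ B then zet c k M (I sl.2.2).card else 0

/-- weights of the labels -/
def qz (c : ℝ) (k : ℕ) (Q : Finset V) (B : Finset (ZMod M)) (I : ZMod M → Finset (ZMod M)) (v : V) :
    Option (Sl M) → ℝ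
  | none => 1 - ∑ sl, wv c k Q B I v sl
  | some sl => wv c k Q B I v sl

theorem zet_nonneg (c : ℝ) (k i : ℕ) : 0 ≤ zet c k M i := by
  unfold zet eps
  positivity

theorem sum_wv {c : ℝ} {k : ℕ} {Q : Finset V} {B : Finset (ZMod M)} {I : ZMod M → Finset (ZMod M)}
    (hI : ∀ d ∈ B, (I d).card ≤ 3) (v : V) :
    ∑ sl, wv c k Q B I v sl ≤ 480 * (k : ℝ) ^ (-c) := by
  have hM : (0 : ℝ) < M := by
    have := NeZero.pos M
    exact_mod_cast this
  have h1 : ∀ sl : Sl M, wv c k Q B I v sl ≤ 6 * ((k : ℝ) ^ (-c) / M) := by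
    intro sl
    unfold wv
    split_ifs with h
    · unfold zet eps
      have h2 : ((I sl.2.2).card : ℝ) ≤ 3 := by exact_mod_cast hI _ h.2
      have h3 : (0 : ℝ) ≤ (k : ℝ) ^ (-c) / M := by positivity
      nlinarith
    · positivity
  refine (Finset.sum_le_sum fun sl _ => h1 sl).trans (le_of_eq ?_)
  rw [Finset.sum_const, Finset.card_univ, nsmul_eq_mul]
  have h4 : Fintype.card (Sl M) = 2 * (40 * M) := by
    simp [Sl, ZMod.card]
  rw [h4]
  push_cast
  field_simp
  ring

theorem wv_nonneg {c : ℝ} {k : ℕ} {Q : Finset V} {B : Finset (ZMod M)} {I : ZMod M → Finset (ZMod M)}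
    (v : V) (sl : Sl M) : 0 ≤ wv c k Q B I v sl := by
  unfold wv
  split_ifs
  · exact zet_nonneg _ _ _
  · exact le_rfl

theorem qz_prob {c : ℝ} {k : ℕ} {Q : Finset V} {B : Finset (ZMod M)} {I : ZMod M → Finset (ZMod M)}
    (hI : ∀ d ∈ B, (I d).card ≤ 3) (hk : 480 * (k : ℝ) ^ (-c) ≤ 1) :
    IsProb (W := V) (α := fun _ => Option (Sl M)) (qz c k Q B I) := by
  constructor
  · rintro v (_ | sl)
    · have := sum_wv (c := c) (Q := Q) (k := k) hI v
      show 0 ≤ 1 - ∑ sl, wv c k Q B I v sl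
      linarith
    · exact wv_nonneg v sl
  · intro v
    rw [Fintype.sum_option]
    show 1 - ∑ sl, wv c k Q B I v sl + ∑ sl, wv c k Q B I v sl = 1
    ring

/-- number of the vertices of `S` with a label in `J` -/
theorem indS {c : ℝ} {k : ℕ} {Q : Finset V} {B : Finset (ZMod M)} {I : ZMod M → Finset (ZMod M)}
    (hI : ∀ d ∈ B, (I d).card ≤ 3) (hk : 480 * (k : ℝ) ^ (-c) ≤ 1) (S : Finset V)
    (J : Finset (Option (Sl M))) :
    IndSum (W := V) (α := fun _ => Option (Sl M)) (qz c k Q B I) S (fun v => {v})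
      (fun v ω => if ω v ∈ J then (1 : ℝ) else 0) := by
  refine ⟨qz_prob hI hk, ?_, ?_, ?_, ?_⟩
  · intro i _ j _ hij
    exact Finset.disjoint_singleton.2 hij
  · intro v _ ω η h
    have := h v (Finset.mem_singleton_self v)
    show (if ω v ∈ J then (1 : ℝ) else 0) = if η v ∈ J then (1 : ℝ) else 0
    rw [this]
  · intro v _ ω
    show 0 ≤ if ω v ∈ J then (1 : ℝ) else 0
    split_ifs <;> norm_num
  · intro v _ ω
    show (if ω v ∈ J then (1 : ℝ) else 0) ≤ 1
    split_ifs <;> norm_num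

theorem Ex_J {c : ℝ} {k : ℕ} {Q : Finset V} {B : Finset (ZMod M)} {I : ZMod M → Finset (ZMod M)}
    (hI : ∀ d ∈ B, (I d).card ≤ 3) (hk : 480 * (k : ℝ) ^ (-c) ≤ 1) (v : V)
    (J : Finset (Option (Sl M))) :
    Ex (α := fun _ : V => Option (Sl M)) (qz c k Q B I) (fun ω => if ω v ∈ J then (1 : ℝ) else 0) =
      ∑ a ∈ J, qz c k Q B I v a := by
  have h1 : (fun ω : V → Option (Sl M) => if ω v ∈ J then (1 : ℝ) else 0) =
      fun ω => ∑ a ∈ J, if ω v = a then (1 : ℝ) else 0 := by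
    funext ω
    rw [Finset.sum_ite_eq]
  rw [h1, Ex_sum]
  refine Finset.sum_congr rfl fun a _ => ?_
  exact Ex_coord (α := fun _ : V => Option (Sl M)) (qz_prob hI hk) v a

/-- special set of a slot -/
def Zs (B : Finset (ZMod M)) (Q : Finset V) (ω : V → Option (Sl M)) (b : Bool) (g : Fin 40)
    (d : ZMod M) : Finset V :=
  Finset.univ.filter fun v => v ∉ Q ∧ d ∈ B ∧ ω v = some (b, g, d)

theorem one_set {c : ℝ} {k s : ℕ} {Q : Finset V} {B : Finset (ZMod M)} {I : ZMod M → Finset (ZMod M)}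
    (hI : ∀ d ∈ B, 2 ≤ (I d).card ∧ (I d).card ≤ 3) (hk : 480 * (k : ℝ) ^ (-c) ≤ 1)
    (hk0 : 1 ≤ k) (hs0 : 1 ≤ s) (S : Finset V) (hS : S.card ≤ 2 * s)
    (hSQ : 20000 * (S ∩ Q).card ≤ s) (b : Bool) (g : Fin 40) {d : ZMod M} (hd : d ∈ B) :
    Pr (α := fun _ : V => Option (Sl M)) (qz c k Q B I)
      {ω | ¬ |((S ∩ Zs B Q ω b g d).card : ℝ) - zet c k M (I d).card * S.card| ≤
        zet c k M (I d).card * s / 8000} ≤
      2 * Real.exp (-(7 / 10000000000 * (zet c k M (I d).card * s))) := by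
  have hI3 : ∀ d ∈ B, (I d).card ≤ 3 := fun d hd => (hI d hd).2
  have hM : (0 : ℝ) < M := by
    have := NeZero.pos M
    exact_mod_cast this
  have hz : 0 < zet c k M (I d).card := by
    unfold zet eps
    have h1 : (0 : ℝ) < (I d).card := by
      have := (hI d hd).1
      exact_mod_cast (by omega : 0 < (I d).card)
    have h2 : (0 : ℝ) < k := by exact_mod_cast hk0
    positivity
  set z := zet c k M (I d).card with hzdef
  have hs : (0 : ℝ) < s := by exact_mod_cast hs0
  set S' := S.filter fun v => v ∉ Q with hS'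
  set J : Finset (Option (Sl M)) := {some (b, g, d)} with hJ
  have hind := indS (V := V) (Q := Q) hI3 hk S' J
  have hqv : ∀ v ∈ S', qz c k Q B I v (some (b, g, d)) = z := by
    intro v hv
    show wv c k Q B I v (b, g, d) = z
    unfold wv
    rw [if_pos ⟨(Finset.mem_filter.1 hv).2, hd⟩]
  have hEx : ∑ v ∈ S', Ex (α := fun _ : V => Option (Sl M)) (qz c k Q B I)
      (fun ω => if ω v ∈ J then (1 : ℝ) else 0) = S'.card * z := by
    have h1 : ∀ v ∈ S', Ex (α := fun _ : V => Option (Sl M)) (qz c k Q B I)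
        (fun ω => if ω v ∈ J then (1 : ℝ) else 0) = z := by
      intro v hv
      rw [Ex_J hI3 hk v J, hJ, Finset.sum_singleton]
      exact hqv v hv
    rw [Finset.sum_congr rfl h1, Finset.sum_const, nsmul_eq_mul]
  have hsplit : S'.card + (S ∩ Q).card = S.card := by
    rw [hS']
    have h1 := Finset.card_filter_add_card_filter_not (s := S) (fun v => v ∉ Q)
    have h2 : S.filter (fun v => ¬ v ∉ Q) = S ∩ Q := by
      ext v
      simp [Finset.mem_inter]
    rw [h2] at h1
    exact h1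
  have hS'le : (S'.card : ℝ) ≤ 2 * s := by
    have : S'.card ≤ S.card := Finset.card_filter_le _ _
    exact_mod_cast this.trans hS
  have hcount : ∀ ω : V → Option (Sl M), ((S ∩ Zs B Q ω b g d).card : ℝ) =
      ∑ v ∈ S', if ω v ∈ J then (1 : ℝ) else 0 := by
    intro ω
    rw [hS', Finset.sum_filter]
    have h1 : S ∩ Zs B Q ω b g d = S.filter fun v => v ∉ Q ∧ ω v = some (b, g, d) := by
      ext v
      simp only [Zs, Finset.mem_inter, Finset.mem_filter, Finset.mem_univ, true_and]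
      constructor
      · rintro ⟨h1, h2, _, h3⟩
        exact ⟨h1, h2, h3⟩
      · rintro ⟨h1, h2, h3⟩
        exact ⟨h1, h2, hd, h3⟩
    rw [h1, Finset.card_filter]
    push_cast
    refine Finset.sum_congr rfl fun v _ => ?_
    by_cases ha : v ∉ Q <;> by_cases hb : ω v = some (b, g, d) <;> simp [ha, hb, hJ]
  have hμ : ∑ v ∈ S', Ex (α := fun _ : V => Option (Sl M)) (qz c k Q B I)
      (fun ω => if ω v ∈ J then (1 : ℝ) else 0) ≤ 2 * z * s := by
    rw [hEx]
    nlinarith
  have hch := hind.chern (μ := 2 * z * s) (t := 3 * z * s / 40000) (by positivity) hμ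
    (by positivity) (by nlinarith [mul_pos hz hs])
  have hexp : (3 * z * s / 40000) ^ 2 / (4 * (2 * z * s)) = 9 / 12800000000 * (z * s) := by
    field_simp
    norm_num
  rw [hexp] at hch
  refine le_trans (Pr_mono (qz_prob hI3 hk) ?_) (hch.trans ?_)
  · intro ω hω
    show 3 * z * s / 40000 ≤ |_|
    by_contra hcon
    push Not at hcon
    apply hω
    rw [hEx, ← hcount ω] at hcon
    have h1 : ((S ∩ Q).card : ℝ) ≤ s / 20000 := by
      have : (20000 : ℝ) * (S ∩ Q).card ≤ s := by exact_mod_cast hSQ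
      linarith
    have h2 : (S.card : ℝ) = S'.card + (S ∩ Q).card := by exact_mod_cast hsplit.symm
    have h3 : (0 : ℝ) ≤ (S ∩ Q).card := Nat.cast_nonneg _
    have h4 : z * ((S ∩ Q).card : ℝ) ≤ z * (s / 20000) := mul_le_mul_of_nonneg_left h1 hz.le
    have h5 : 0 ≤ z * ((S ∩ Q).card : ℝ) := mul_nonneg hz.le h3
    rw [h2]
    rw [abs_lt] at hcon
    rw [abs_le]
    constructor
    · nlinarith [hcon.1, hcon.2]
    · nlinarith [hcon.1, hcon.2]
  · refine mul_le_mul_of_nonneg_left (Real.exp_le_exp.2 ?_) (by norm_num)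
    have : 0 < z * s := mul_pos hz hs
    nlinarith

/-- the numbers -/
theorem zch_num (c : ℝ) (hc0 : 0 < c) (hc : c ≤ 0.005) :
    ∃ k0 : ℕ, ∀ k M s q : ℕ, k0 ≤ k → Par k M s q →
    160 ≤ k ∧ 480 * (k : ℝ) ^ (-c) ≤ 1 ∧
    (∀ i : ℕ, 2 ≤ i → Real.exp (-(7 / 10000000000 * (zet c k M i * s))) ≤ ((k : ℝ) ^ 15)⁻¹) ∧
    Real.exp (-(140 * (k : ℝ) ^ (0.005 : ℝ))) ≤ ((k : ℝ) ^ 15)⁻¹ ∧
    Real.exp (-(1 / 4 * (k : ℝ) ^ (0.01 : ℝ))) ≤ ((k : ℝ) ^ 16)⁻¹ := by
  obtain ⟨a1, h1⟩ := exp_small (28 / 10000000000) 0.4525 15 (by norm_num) (by norm_num)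
  obtain ⟨a2, h2⟩ := exp_small 140 0.005 15 (by norm_num) (by norm_num)
  obtain ⟨a3, h3⟩ := exp_small (1 / 4) 0.01 16 (by norm_num) (by norm_num)
  have h4 := (tendsto_rpow_atTop hc0).eventually
    (Filter.eventually_ge_atTop (480 : ℝ))
  obtain ⟨a4, h4⟩ := Filter.eventually_atTop.1 h4
  refine ⟨⌈max a1 (max a2 (max a3 (max a4 160)))⌉₊, fun k M s q hk hp => ?_⟩
  have hk' : max a1 (max a2 (max a3 (max a4 160))) ≤ (k : ℝ) := by
    exact (Nat.le_ceil _).trans (by exact_mod_cast hk)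
  simp only [max_le_iff] at hk'
  obtain ⟨hk1, hk2, hk3, hk4, hk5⟩ := hk'
  have hk0 : (0 : ℝ) < k := by linarith
  refine ⟨by exact_mod_cast hk5, ?_, ?_, ?_, ?_⟩
  · have h5 := h4 k hk4
    rw [Real.rpow_neg hk0.le]
    rw [← div_eq_mul_inv, div_le_one (by positivity)]
    exact h5
  · intro i hi
    have h5 := h1 k hk1
    rw [Real.rpow_neg hk0.le, show (15 : ℝ) = ((15 : ℕ) : ℝ) by norm_num,
      Real.rpow_natCast] at h5
    refine le_trans (Real.exp_le_exp.2 ?_) h5
    have hi' : (2 : ℝ) ≤ i := by exact_mod_cast hi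
    have hM0 : (0 : ℝ) < M := by
      have := hp.pr.pos
      exact_mod_cast this
    have h6 : (k : ℝ) ^ (0.4525 : ℝ) ≤ eps c k M * s := by
      unfold eps
      have h7 : (k : ℝ) ^ (0.4525 : ℝ) * (k : ℝ) ^ (0.54 : ℝ) ≤
          (k : ℝ) ^ (-c) * (k : ℝ) ^ (1 - 1 / 400 : ℝ) := by
        rw [← Real.rpow_add hk0, ← Real.rpow_add hk0]
        refine Real.rpow_le_rpow_of_exponent_le (by linarith) ?_
        norm_num
        linarith
      rw [div_mul_eq_mul_div, le_div_iff₀ hM0]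
      calc (k : ℝ) ^ (0.4525 : ℝ) * M ≤ (k : ℝ) ^ (0.4525 : ℝ) * (k : ℝ) ^ (0.54 : ℝ) :=
            mul_le_mul_of_nonneg_left hp.Mhi (by positivity)
        _ ≤ (k : ℝ) ^ (-c) * (k : ℝ) ^ (1 - 1 / 400 : ℝ) := h7
        _ ≤ (k : ℝ) ^ (-c) * s := mul_le_mul_of_nonneg_left hp.slo (by positivity)
    have h8 : (0 : ℝ) ≤ (k : ℝ) ^ (0.4525 : ℝ) := by positivity
    have h9 : zet c k M i * s = 2 * i * (eps c k M * s) := by
      unfold zet
      ring
    rw [h9]
    have h10 : 4 * (k : ℝ) ^ (0.4525 : ℝ) ≤ 2 * i * (eps c k M * s) := by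
      have h11 : (0 : ℝ) ≤ eps c k M * s := h8.trans h6
      nlinarith
    linarith
  · have h5 := h2 k hk2
    rw [Real.rpow_neg hk0.le, show (15 : ℝ) = ((15 : ℕ) : ℝ) by norm_num,
      Real.rpow_natCast] at h5
    exact h5
  · have h5 := h3 k hk3
    rw [Real.rpow_neg hk0.le, show (16 : ℝ) = ((16 : ℕ) : ℝ) by norm_num,
      Real.rpow_natCast] at h5
    exact h5

theorem fam_set {c : ℝ} (hc : c ≤ 0.005) {k : ℕ} {Q : Finset V} {B : Finset (ZMod M)} {I : ZMod M → Finset (ZMod M)}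
    (hI : ∀ d ∈ B, 2 ≤ (I d).card ∧ (I d).card ≤ 3) (hk : 480 * (k : ℝ) ^ (-c) ≤ 1)
    (hk0 : 1 ≤ k) (F : Finset V) (hF : (k : ℝ) ^ (0.01 : ℝ) ≤ F.card) :
    Pr (α := fun _ : V => Option (Sl M)) (qz c k Q B I)
      {ω | ¬ ((F ∩ Finset.univ.filter fun v => ∃ g, ∃ d ∈ B, v ∈ Zs B Q ω true g d ∨
        v ∈ Zs B Q ω false g d).card : ℝ) ≤ 1000 * (k : ℝ) ^ (-c) * F.card} ≤
      Real.exp (-(140 * (k : ℝ) ^ (0.005 : ℝ))) := by
  have hI3 : ∀ d ∈ B, (I d).card ≤ 3 := fun d hd => (hI d hd).2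
  have hkk : (0 : ℝ) < k := by exact_mod_cast hk0
  set J : Finset (Option (Sl M)) := Finset.univ.filter fun a => a ≠ none with hJ
  have hind := indS (V := V) (Q := Q) hI3 hk F J
  have hF0 : (0 : ℝ) < F.card := lt_of_lt_of_le (Real.rpow_pos_of_pos hkk _) hF
  set e := (k : ℝ) ^ (-c) with he
  have he0 : 0 < e := Real.rpow_pos_of_pos hkk _
  have hEx : ∑ v ∈ F, Ex (α := fun _ : V => Option (Sl M)) (qz c k Q B I)
      (fun ω => if ω v ∈ J then (1 : ℝ) else 0) ≤ 480 * e * F.card := by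
    have h1 : ∀ v ∈ F, Ex (α := fun _ : V => Option (Sl M)) (qz c k Q B I)
        (fun ω => if ω v ∈ J then (1 : ℝ) else 0) ≤ 480 * e := by
      intro v _
      rw [Ex_J hI3 hk v J, hJ, Finset.sum_filter, Fintype.sum_option]
      simp only [ne_eq, not_true_eq_false, if_false, zero_add, reduceCtorEq, not_false_eq_true,
        if_true]
      exact sum_wv hI3 v
    refine (Finset.sum_le_sum h1).trans (le_of_eq ?_)
    rw [Finset.sum_const, nsmul_eq_mul]
    ring
  have hch := hind.chern_up (μ := 480 * e * F.card) (t := 520 * e * F.card) (by positivity) hEx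
    (by positivity) (by nlinarith [mul_pos he0 hF0])
  refine le_trans (Pr_mono (qz_prob hI3 hk) ?_) (hch.trans ?_)
  · intro ω hω
    show _ + 520 * e * F.card ≤ _
    have h1 : 1000 * e * F.card < ((F ∩ Finset.univ.filter fun v => ∃ g, ∃ d ∈ B,
        v ∈ Zs B Q ω true g d ∨ v ∈ Zs B Q ω false g d).card : ℝ) := not_le.1 hω
    have h2 : ((F ∩ Finset.univ.filter fun v => ∃ g, ∃ d ∈ B,
        v ∈ Zs B Q ω true g d ∨ v ∈ Zs B Q ω false g d).card : ℝ) ≤
        ∑ v ∈ F, if ω v ∈ J then (1 : ℝ) else 0 := by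
      have h3 : (F ∩ Finset.univ.filter fun v => ∃ g, ∃ d ∈ B,
        v ∈ Zs B Q ω true g d ∨ v ∈ Zs B Q ω false g d) ⊆ F.filter fun v => ω v ∈ J := by
        intro v hv
        obtain ⟨h4, h5⟩ := Finset.mem_inter.1 hv
        obtain ⟨_, g, d, hd, h6⟩ := Finset.mem_filter.1 h5
        refine Finset.mem_filter.2 ⟨h4, ?_⟩
        rw [hJ, Finset.mem_filter]
        refine ⟨Finset.mem_univ _, ?_⟩
        rcases h6 with h6 | h6
        · rw [(Finset.mem_filter.1 h6).2.2.2]
          exact Option.some_ne_none _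
        · rw [(Finset.mem_filter.1 h6).2.2.2]
          exact Option.some_ne_none _
      have h7 := Finset.card_le_card h3
      rw [Finset.card_filter] at h7
      exact_mod_cast h7
    linarith
  · apply Real.exp_le_exp.2
    have h1 : (520 * e * F.card) ^ 2 / (4 * (480 * e * F.card)) = 520 ^ 2 / 1920 * (e * F.card) := by
      field_simp
      norm_num
    rw [h1]
    have h2 : (k : ℝ) ^ (0.005 : ℝ) ≤ e * F.card := by
      calc (k : ℝ) ^ (0.005 : ℝ) ≤ e * (k : ℝ) ^ (0.01 : ℝ) := by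
            rw [he, ← Real.rpow_add hkk]
            refine Real.rpow_le_rpow_of_exponent_le (by exact_mod_cast hk0) ?_
            norm_num at hc ⊢
            linarith
        _ ≤ _ := mul_le_mul_of_nonneg_left hF he0.le
    have h3 : (0 : ℝ) < (k : ℝ) ^ (0.005 : ℝ) := Real.rpow_pos_of_pos hkk _
    nlinarith

theorem two_set {c : ℝ} {k : ℕ} {Q : Finset V} {B : Finset (ZMod M)}
    {I : ZMod M → Finset (ZMod M)}
    (hI : ∀ d ∈ B, 2 ≤ (I d).card ∧ (I d).card ≤ 3) (hk : 480 * (k : ℝ) ^ (-c) ≤ 1)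
    (hk0 : 1 ≤ k) (F : Finset V) (g : Fin 40) (d : ZMod M) :
    Pr (α := fun _ : V => Option (Sl M)) (qz c k Q B I)
      {ω | ¬ ((F ∩ (Zs B Q ω true g d ∪ Zs B Q ω false g d)).card : ℝ) ≤
        6 * zet c k M (I d).card * F.card + (k : ℝ) ^ (0.01 : ℝ)} ≤
      Real.exp (-(1 / 4 * (k : ℝ) ^ (0.01 : ℝ))) := by
  have hI3 : ∀ d ∈ B, (I d).card ≤ 3 := fun d hd => (hI d hd).2
  have hkk : (0 : ℝ) < k := by exact_mod_cast hk0
  set J : Finset (Option (Sl M)) := {some (true, g, d), some (false, g, d)} with hJ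
  have hind := indS (V := V) (Q := Q) hI3 hk F J
  set z := zet c k M (I d).card with hz
  have hz0 : 0 ≤ z := zet_nonneg _ _ _
  set e := (k : ℝ) ^ (0.01 : ℝ) with he
  have he0 : 0 < e := Real.rpow_pos_of_pos hkk _
  have hF0 : (0 : ℝ) ≤ F.card := Nat.cast_nonneg _
  have hwz : ∀ v b, wv c k Q B I v (b, g, d) ≤ z := by
    intro v b
    unfold wv
    split_ifs
    · exact le_rfl
    · exact hz0
  have hEx : ∑ v ∈ F, Ex (α := fun _ : V => Option (Sl M)) (qz c k Q B I)
      (fun ω => if ω v ∈ J then (1 : ℝ) else 0) ≤ 2 * z * F.card := by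
    have h1 : ∀ v ∈ F, Ex (α := fun _ : V => Option (Sl M)) (qz c k Q B I)
        (fun ω => if ω v ∈ J then (1 : ℝ) else 0) ≤ 2 * z := by
      intro v _
      rw [Ex_J hI3 hk v J, hJ, Finset.sum_pair (by simp)]
      have h2 : qz c k Q B I v (some (true, g, d)) ≤ z := hwz v true
      have h3 : qz c k Q B I v (some (false, g, d)) ≤ z := hwz v false
      linarith
    refine (Finset.sum_le_sum h1).trans (le_of_eq ?_)
    rw [Finset.sum_const, nsmul_eq_mul]
    ring
  have hzF : 0 ≤ z * F.card := mul_nonneg hz0 hF0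
  have hμ0 : 0 < 2 * z * F.card + e := by nlinarith
  have hch := hind.chern_up (μ := 2 * z * F.card + e) (t := 4 * z * F.card + e) hμ0
    (hEx.trans (by linarith)) (by nlinarith) (by nlinarith)
  refine le_trans (Pr_mono (qz_prob hI3 hk) ?_) (hch.trans ?_)
  · intro ω hω
    show _ + (4 * z * F.card + e) ≤ _
    have h1 : 6 * z * F.card + e < ((F ∩ (Zs B Q ω true g d ∪ Zs B Q ω false g d)).card : ℝ) :=
      not_le.1 hω
    have h2 : ((F ∩ (Zs B Q ω true g d ∪ Zs B Q ω false g d)).card : ℝ) ≤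
        ∑ v ∈ F, if ω v ∈ J then (1 : ℝ) else 0 := by
      have h3 : (F ∩ (Zs B Q ω true g d ∪ Zs B Q ω false g d)) ⊆ F.filter fun v => ω v ∈ J := by
        intro v hv
        obtain ⟨h4, h5⟩ := Finset.mem_inter.1 hv
        refine Finset.mem_filter.2 ⟨h4, ?_⟩
        rw [hJ, Finset.mem_insert, Finset.mem_singleton]
        rcases Finset.mem_union.1 h5 with h6 | h6
        · exact Or.inl (Finset.mem_filter.1 h6).2.2.2
        · exact Or.inr (Finset.mem_filter.1 h6).2.2.2
      have h7 := Finset.card_le_card h3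
      rw [Finset.card_filter] at h7
      exact_mod_cast h7
    linarith
  · apply Real.exp_le_exp.2
    have h1 : 1 / 4 * e ≤ (4 * z * F.card + e) ^ 2 / (4 * (2 * z * F.card + e)) := by
      rw [le_div_iff₀ (by positivity)]
      nlinarith
    linarith

/-- ZCH -/
theorem zch : ZCHStmt := by
  intro c hc0 hc
  obtain ⟨k0, hk0⟩ := zch_num c hc0 hc
  refine ⟨k0, ?_⟩
  intro k M s q _ _ hk hp V _ O B I Q ι _ F hI hreg hQ hF hFv
  obtain ⟨hk160, hk1, hk2, hk3, hk4⟩ := hk0 k M s q hk hp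
  have hI3 : ∀ d ∈ B, (I d).card ≤ 3 := fun d hd => (hI d hd).2
  have hkk : (0 : ℝ) < k := by
    have : 0 < k := by omega
    exact_mod_cast this
  have hk1' : (1 : ℝ) ≤ k := by
    have : 1 ≤ k := by omega
    exact_mod_cast this
  have hs1 : 1 ≤ s := by
    have h1 : (1 : ℝ) ≤ s := by
      refine le_trans ?_ hp.slo
      exact Real.one_le_rpow hk1' (by norm_num)
    exact_mod_cast h1
  have hs0 : (0 : ℝ) < s := by exact_mod_cast hs1
  have hsk : s ≤ k := hp.shi
  have hMk : (M : ℝ) ≤ k := by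
    refine hp.Mhi.trans ?_
    calc (k : ℝ) ^ (0.54 : ℝ) ≤ (k : ℝ) ^ (1 : ℝ) :=
          Real.rpow_le_rpow_of_exponent_le hk1' (by norm_num)
      _ = k := Real.rpow_one _
  have hq := qz_prob (V := V) (M := M) (Q := Q) hI3 hk1
  have hdeg : ∀ g x, (outN (O g) x).card ≤ 2 * s ∧ (inN (O g) x).card ≤ 2 * s := by
    intro g x
    have h1 : (k : ℝ) ^ (-0.4 : ℝ) ≤ 1 :=
      Real.rpow_le_one_of_one_le_of_nonpos hk1' (by norm_num)
    obtain ⟨h2, h3⟩ := hreg g x
    have h4 := (abs_le.1 h2).2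
    have h5 := (abs_le.1 h3).2
    constructor
    · have : ((outN (O g) x).card : ℝ) ≤ 2 * s := by nlinarith
      exact_mod_cast this
    · have : ((inN (O g) x).card : ℝ) ≤ 2 * s := by nlinarith
      exact_mod_cast this
  -- read vertices
  set S1 : V → Finset V := fun x =>
    (Finset.univ : Finset (Fin 40)).biUnion fun g => outN (O g) x ∪ inN (O g) x with hS1
  have hS1c : ∀ x, (S1 x).card ≤ 160 * s := by
    intro x
    refine Finset.card_biUnion_le.trans ?_
    refine (Finset.sum_le_sum (g := fun _ => 4 * s) fun g _ => ?_).trans ?_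
    · have := Finset.card_union_le (outN (O g) x) (inN (O g) x)
      have := hdeg g x
      omega
    · rw [Finset.sum_const, Finset.card_univ, Fintype.card_fin, smul_eq_mul]
      omega
  have hS1s : ∀ x u, u ∈ S1 x → x ∈ S1 u := by
    intro x u hu
    rw [hS1, Finset.mem_biUnion] at hu ⊢
    obtain ⟨g, hg, hu⟩ := hu
    refine ⟨g, hg, ?_⟩
    rcases Finset.mem_union.1 hu with hu | hu
    · refine Finset.mem_union_right _ ?_
      unfold outN at hu
      unfold inN
      rw [Finset.mem_filter] at hu ⊢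
      exact ⟨Finset.mem_univ _, hu.2⟩
    · refine Finset.mem_union_left _ ?_
      unfold inN at hu
      unfold outN
      rw [Finset.mem_filter] at hu ⊢
      exact ⟨Finset.mem_univ _, hu.2⟩
  let S : V ⊕ ι → Finset V := Sum.elim S1 F
  let bad1 : V → Set (V → Option (Sl M)) := fun x => {ω | ∃ i ∈ (Finset.univ : Finset (Fin 40)) ×ˢ B,
    ω ∈ {ω : V → Option (Sl M) | ¬ |((outN (O i.1) x ∩ Zs B Q ω false i.1 i.2).card : ℝ) -
        zet c k M (I i.2).card * (outN (O i.1) x).card| ≤ zet c k M (I i.2).card * s / 8000} ∪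
      {ω | ¬ |((inN (O i.1) x ∩ Zs B Q ω true i.1 i.2).card : ℝ) -
        zet c k M (I i.2).card * (inN (O i.1) x).card| ≤ zet c k M (I i.2).card * s / 8000}}
  let bad2 : ι → Set (V → Option (Sl M)) := fun i =>
    {ω | ¬ ((F i ∩ Finset.univ.filter fun v => ∃ g, ∃ d ∈ B, v ∈ Zs B Q ω true g d ∨
        v ∈ Zs B Q ω false g d).card : ℝ) ≤ 1000 * (k : ℝ) ^ (-c) * (F i).card}
  let bad3 : ι → Set (V → Option (Sl M)) := fun i =>
    {ω | ∃ j ∈ (Finset.univ : Finset (Fin 40)) ×ˢ B,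
      ω ∈ {ω : V → Option (Sl M) |
        ¬ ((F i ∩ (Zs B Q ω true j.1 j.2 ∪ Zs B Q ω false j.1 j.2)).card : ℝ) ≤
          6 * zet c k M (I j.2).card * (F i).card + (k : ℝ) ^ (0.01 : ℝ)}}
  let A : V ⊕ ι → Set (V → Option (Sl M)) := Sum.elim bad1 fun i => bad2 i ∪ bad3 i
  have hZeq : ∀ (T : Finset V) (ω η : V → Option (Sl M)) (b : Bool) (g : Fin 40) (d : ZMod M),
      (∀ v ∈ T, ω v = η v) → T ∩ Zs B Q ω b g d = T ∩ Zs B Q η b g d := by
    intro T ω η b g d h
    ext v
    simp only [Zs, Finset.mem_inter, Finset.mem_filter, Finset.mem_univ, true_and]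
    constructor
    · rintro ⟨h1, h2⟩
      exact ⟨h1, by rw [← h v h1]; exact h2⟩
    · rintro ⟨h1, h2⟩
      exact ⟨h1, by rw [h v h1]; exact h2⟩
  have hDep : ∀ v, Dep (α := fun _ : V => Option (Sl M)) (S v) fun ω => ω ∈ A v := by
    rintro (x | i) ω η h
    · have h1 : ∀ g, ∀ v ∈ outN (O g) x, ω v = η v := by
        intro g v hv
        exact h v (Finset.mem_biUnion.2 ⟨g, Finset.mem_univ _, Finset.mem_union_left _ hv⟩)
      have h2 : ∀ g, ∀ v ∈ inN (O g) x, ω v = η v := by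
        intro g v hv
        exact h v (Finset.mem_biUnion.2 ⟨g, Finset.mem_univ _, Finset.mem_union_right _ hv⟩)
      show (ω ∈ bad1 x) = (η ∈ bad1 x)
      have h3 : ∀ i : Fin 40 × ZMod M, outN (O i.1) x ∩ Zs B Q ω false i.1 i.2 =
        outN (O i.1) x ∩ Zs B Q η false i.1 i.2 := fun i => hZeq _ _ _ _ _ _ (h1 i.1)
      have h4 : ∀ i : Fin 40 × ZMod M, inN (O i.1) x ∩ Zs B Q ω true i.1 i.2 =
        inN (O i.1) x ∩ Zs B Q η true i.1 i.2 := fun i => hZeq _ _ _ _ _ _ (h2 i.1)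
      simp only [bad1, Set.mem_ofPred_eq, Set.mem_union, h3, h4]
    · have h1 : ∀ v ∈ F i, ω v = η v := fun v hv => h v hv
      show (ω ∈ bad2 i ∪ bad3 i) = (η ∈ bad2 i ∪ bad3 i)
      have h3 : ∀ j : Fin 40 × ZMod M, F i ∩ (Zs B Q ω true j.1 j.2 ∪ Zs B Q ω false j.1 j.2) =
          F i ∩ (Zs B Q η true j.1 j.2 ∪ Zs B Q η false j.1 j.2) := by
        intro j
        rw [Finset.inter_union_distrib_left, Finset.inter_union_distrib_left,
          hZeq _ _ _ _ _ _ h1, hZeq _ _ _ _ _ _ h1]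
      have h2 : (F i ∩ Finset.univ.filter fun v => ∃ g, ∃ d ∈ B, v ∈ Zs B Q ω true g d ∨
          v ∈ Zs B Q ω false g d) = (F i ∩ Finset.univ.filter fun v => ∃ g, ∃ d ∈ B,
          v ∈ Zs B Q η true g d ∨ v ∈ Zs B Q η false g d) := by
        ext v
        simp only [Zs, Finset.mem_inter, Finset.mem_filter, Finset.mem_univ, true_and]
        constructor
        · rintro ⟨h3, h4⟩
          rw [h1 v h3] at h4
          exact ⟨h3, h4⟩
        · rintro ⟨h3, h4⟩
          rw [← h1 v h3] at h4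
          exact ⟨h3, h4⟩
      simp only [bad2, bad3, Set.mem_ofPred_eq, Set.mem_union, h2, h3]
  have hPr : ∀ v, Pr (α := fun _ : V => Option (Sl M)) (qz c k Q B I) (A v) ≤
      ((k : ℝ) ^ 13)⁻¹ := by
    rintro (x | i)
    · show Pr (α := fun _ : V => Option (Sl M)) (qz c k Q B I) (bad1 x) ≤ _
      refine (Pr_exists_le hq _ _).trans ?_
      have h1 : ∀ i ∈ (Finset.univ : Finset (Fin 40)) ×ˢ B,
          Pr (α := fun _ : V => Option (Sl M)) (qz c k Q B I)
          ({ω : V → Option (Sl M) | ¬ |((outN (O i.1) x ∩ Zs B Q ω false i.1 i.2).card : ℝ) -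
            zet c k M (I i.2).card * (outN (O i.1) x).card| ≤ zet c k M (I i.2).card * s / 8000} ∪
          {ω | ¬ |((inN (O i.1) x ∩ Zs B Q ω true i.1 i.2).card : ℝ) -
            zet c k M (I i.2).card * (inN (O i.1) x).card| ≤ zet c k M (I i.2).card * s / 8000}) ≤
          4 * ((k : ℝ) ^ 15)⁻¹ := by
        intro i hi
        have hd : i.2 ∈ B := (Finset.mem_product.1 hi).2
        have h2 := one_set (V := V) (k := k) (s := s) (Q := Q) hI hk1 (by omega) hs1
          (outN (O i.1) x) (hdeg i.1 x).1 (hQ i.1 x).1 false i.1 hd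
        have h3 := one_set (V := V) (k := k) (s := s) (Q := Q) hI hk1 (by omega) hs1
          (inN (O i.1) x) (hdeg i.1 x).2 (hQ i.1 x).2 true i.1 hd
        have h4 := hk2 (I i.2).card (hI _ hd).1
        have h5 := Pr_union_le hq
          {ω : V → Option (Sl M) | ¬ |((outN (O i.1) x ∩ Zs B Q ω false i.1 i.2).card : ℝ) -
            zet c k M (I i.2).card * (outN (O i.1) x).card| ≤ zet c k M (I i.2).card * s / 8000}
          {ω | ¬ |((inN (O i.1) x ∩ Zs B Q ω true i.1 i.2).card : ℝ) -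
            zet c k M (I i.2).card * (inN (O i.1) x).card| ≤ zet c k M (I i.2).card * s / 8000}
        linarith
      refine (Finset.sum_le_sum h1).trans ?_
      rw [Finset.sum_const, Finset.card_product, Finset.card_univ, Fintype.card_fin, nsmul_eq_mul]
      have h2 : (B.card : ℝ) ≤ k := by
        refine le_trans ?_ hMk
        have h3 : B.card ≤ M := by
          have := Finset.card_le_univ B
          rwa [ZMod.card] at this
        exact_mod_cast h3
      have h3 : (160 : ℝ) ≤ k := by exact_mod_cast hk160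
      push_cast
      have h4 : (0 : ℝ) < ((k : ℝ) ^ 15)⁻¹ := by positivity
      calc 40 * (B.card : ℝ) * (4 * ((k : ℝ) ^ 15)⁻¹) = (160 * B.card) * ((k : ℝ) ^ 15)⁻¹ := by ring
        _ ≤ (k * k) * ((k : ℝ) ^ 15)⁻¹ := by
            refine mul_le_mul_of_nonneg_right ?_ h4.le
            exact mul_le_mul h3 h2 (Nat.cast_nonneg _) hkk.le
        _ = ((k : ℝ) ^ 13)⁻¹ := by
            field_simp
    · show Pr (α := fun _ : V => Option (Sl M)) (qz c k Q B I) (bad2 i ∪ bad3 i) ≤ _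
      have h1 := (fam_set (V := V) (Q := Q) hc hI hk1 (by omega) (F i) (hF i).1).trans hk3
      have h2 : Pr (α := fun _ : V => Option (Sl M)) (qz c k Q B I) (bad3 i) ≤
          40 * (B.card : ℝ) * ((k : ℝ) ^ 16)⁻¹ := by
        refine (Pr_exists_le hq _ _).trans ?_
        refine (Finset.sum_le_sum (g := fun _ => ((k : ℝ) ^ 16)⁻¹) fun j _ => ?_).trans ?_
        · exact (two_set (V := V) (Q := Q) hI hk1 (by omega) (F i) j.1 j.2).trans hk4
        · rw [Finset.sum_const, Finset.card_product, Finset.card_univ, Fintype.card_fin,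
            nsmul_eq_mul]
          push_cast
          exact le_rfl
      have h3 := Pr_union_le hq (bad2 i) (bad3 i)
      have h4 : (B.card : ℝ) ≤ k := by
        refine le_trans ?_ hMk
        have h3 : B.card ≤ M := by
          have := Finset.card_le_univ B
          rwa [ZMod.card] at this
        exact_mod_cast h3
      have h5 : (160 : ℝ) ≤ k := by exact_mod_cast hk160
      have h6 : 40 * (B.card : ℝ) * ((k : ℝ) ^ 16)⁻¹ ≤ 40 * ((k : ℝ) ^ 15)⁻¹ := by
        calc 40 * (B.card : ℝ) * ((k : ℝ) ^ 16)⁻¹ ≤ 40 * (k : ℝ) * ((k : ℝ) ^ 16)⁻¹ := by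
              refine mul_le_mul_of_nonneg_right ?_ (by positivity)
              linarith
          _ = 40 * ((k : ℝ) ^ 15)⁻¹ := by field_simp
      have h7 : 41 * ((k : ℝ) ^ 15)⁻¹ ≤ ((k : ℝ) ^ 13)⁻¹ := by
        calc 41 * ((k : ℝ) ^ 15)⁻¹ ≤ (k * k) * ((k : ℝ) ^ 15)⁻¹ := by
              refine mul_le_mul_of_nonneg_right ?_ (by positivity)
              nlinarith
          _ = ((k : ℝ) ^ 13)⁻¹ := by field_simp
      have h8 : Pr (α := fun _ : V => Option (Sl M)) (qz c k Q B I) (bad2 i) ≤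
        ((k : ℝ) ^ 15)⁻¹ := h1
      linarith
  have hcard : ∀ v, (S v).card ≤ k ^ 2 := by
    rintro (x | i)
    · show (S1 x).card ≤ k ^ 2
      have := hS1c x
      have h2 : 160 * s ≤ k * k := Nat.mul_le_mul hk160 hsk
      rw [sq]
      omega
    · exact (hF i).2
  have hrev : ∀ u, (Finset.univ.filter fun v' => u ∈ S v').card ≤ 2 * k ^ 10 := by
    intro u
    have h1 : (Finset.univ.filter fun v' => u ∈ S v') ⊆
        (S1 u).image Sum.inl ∪ (Finset.univ.filter fun i => u ∈ F i).image Sum.inr := by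
      rintro (x | i) hv
      · refine Finset.mem_union_left _ (Finset.mem_image.2 ⟨x, ?_, rfl⟩)
        exact hS1s x u (Finset.mem_filter.1 hv).2
      · refine Finset.mem_union_right _ (Finset.mem_image.2 ⟨i, ?_, rfl⟩)
        exact Finset.mem_filter.2 ⟨Finset.mem_univ _, (Finset.mem_filter.1 hv).2⟩
    have h2 := (Finset.card_le_card h1).trans (Finset.card_union_le _ _)
    have h3 : ((S1 u).image (Sum.inl : V → V ⊕ ι)).card ≤ (S1 u).card := Finset.card_image_le
    have h4 : ((Finset.univ.filter fun i => u ∈ F i).image (Sum.inr : ι → V ⊕ ι)).card ≤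
      (Finset.univ.filter fun i => u ∈ F i).card := Finset.card_image_le
    have h5 := hFv u
    have h6 := hS1c u
    have h7 : 160 * s ≤ k * k := Nat.mul_le_mul hk160 hsk
    have h8 : k * k ≤ k ^ 10 := by
      rw [← sq]
      exact Nat.pow_le_pow_right (by omega) (by norm_num)
    omega
  obtain ⟨ω, hω⟩ := plain_lll (VV := V ⊕ ι) hq A S hDep ((k : ℝ) ^ 13)⁻¹ (2 * (k : ℝ) ^ 12)
    (by positivity) (by
      have h1 : 4 * ((k : ℝ) ^ 13)⁻¹ * (2 * (k : ℝ) ^ 12) = 8 / k := by
        field_simp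
        norm_num
      rw [h1, div_le_one hkk]
      have : 8 ≤ k := by omega
      exact_mod_cast this) (by
      rw [inv_le_comm₀ (by positivity) (by norm_num)]
      have h1 : (1 / 4 : ℝ)⁻¹ ≤ k := by
        rw [one_div, inv_inv]
        have : 4 ≤ k := by omega
        exact_mod_cast this
      refine h1.trans ?_
      calc (k : ℝ) = (k : ℝ) ^ 1 := (pow_one _).symm
        _ ≤ (k : ℝ) ^ 13 := pow_le_pow_right₀ hk1' (by norm_num)) hPr (by
      intro v
      have h1 : (Finset.univ.filter fun v' => (S v ∩ S v').Nonempty) ⊆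
          (S v).biUnion fun u => Finset.univ.filter fun v' => u ∈ S v' := by
        intro v' hv'
        obtain ⟨u, hu⟩ := (Finset.mem_filter.1 hv').2
        rw [Finset.mem_biUnion]
        exact ⟨u, (Finset.mem_inter.1 hu).1,
          Finset.mem_filter.2 ⟨Finset.mem_univ _, (Finset.mem_inter.1 hu).2⟩⟩
      have h2 : (Finset.univ.filter fun v' => (S v ∩ S v').Nonempty).card ≤
          k ^ 2 * (2 * k ^ 10) := by
        refine (Finset.card_le_card h1).trans (Finset.card_biUnion_le.trans ?_)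
        refine (Finset.sum_le_sum fun u _ => hrev u).trans ?_
        rw [Finset.sum_const, smul_eq_mul]
        exact Nat.mul_le_mul_right _ (hcard v)
      have h3 : ((Finset.univ.filter fun v' => (S v ∩ S v').Nonempty).card : ℝ) ≤
          (k : ℝ) ^ 2 * (2 * (k : ℝ) ^ 10) := by exact_mod_cast h2
      refine h3.trans (le_of_eq ?_)
      ring)
  refine ⟨fun g d => Zs B Q ω true g d, fun g d => Zs B Q ω false g d, ?_, ?_, ?_, ?_, ?_, ?_⟩
  · intro g d hd x
    have h1 : ω ∉ bad1 x := hω (Sum.inl x)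
    simp only [bad1, Set.mem_ofPred_eq, Set.mem_union, not_exists, not_and, not_or,
      not_not] at h1
    exact h1 (g, d) (Finset.mem_product.2 ⟨Finset.mem_univ _, hd⟩)
  · intro g d
    constructor
    · rw [Finset.disjoint_left]
      intro v hv
      exact (Finset.mem_filter.1 hv).2.1
    · rw [Finset.disjoint_left]
      intro v hv
      exact (Finset.mem_filter.1 hv).2.1
  · intro g d g' d'
    rw [Finset.disjoint_left]
    intro v hv hv'
    have h1 := (Finset.mem_filter.1 hv).2.2.2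
    rw [(Finset.mem_filter.1 hv').2.2.2] at h1
    have h2 := Option.some.inj h1
    exact absurd (congrArg Prod.fst h2) (by simp)
  · intro g d g' d' hne
    constructor
    · rw [Finset.disjoint_left]
      intro v hv hv'
      have h1 := (Finset.mem_filter.1 hv).2.2.2
      rw [(Finset.mem_filter.1 hv').2.2.2] at h1
      have h2 := congrArg Prod.snd (Option.some.inj h1)
      rcases hne with h3 | h3
      · exact h3 (congrArg Prod.fst h2).symm
      · exact h3 (congrArg Prod.snd h2).symm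
    · rw [Finset.disjoint_left]
      intro v hv hv'
      have h1 := (Finset.mem_filter.1 hv).2.2.2
      rw [(Finset.mem_filter.1 hv').2.2.2] at h1
      have h2 := congrArg Prod.snd (Option.some.inj h1)
      rcases hne with h3 | h3
      · exact h3 (congrArg Prod.fst h2).symm
      · exact h3 (congrArg Prod.snd h2).symm
  · intro i
    have h1 : ω ∉ bad2 i := fun h => hω (Sum.inr i) (Or.inl h)
    simp only [bad2, Set.mem_ofPred_eq, not_not] at h1
    exact h1
  · intro i g d hd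
    have h1 : ω ∉ bad3 i := fun h => hω (Sum.inr i) (Or.inr h)
    simp only [bad3, Set.mem_ofPred_eq, not_exists, not_and, not_not] at h1
    exact h1 (g, d) (Finset.mem_product.2 ⟨Finset.mem_univ _, hd⟩)

end Pool.Agent.C4W.H58
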