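import Mathlib

/-! EXB: the expectation of a product of functions of independent uniform labels. -/

set_option autoImplicit false
set_option linter.unusedSectionVars false

namespace Pool.Agent.C4M.H58

open Finset

/-- the average of a function on a finite type -/
noncomputable def avg {Ω : Type*} [Fintype Ω] (F : Ω → ℝ) : ℝ := (∑ w, F w) / Fintype.card Ω

section

variable {Ω : Type*} [Fintype Ω]

theorem avg_nonneg {F : Ω → ℝ} (h : ∀ w, 0 ≤ F w) : 0 ≤ avg F :=
  div_nonneg (Finset.sum_nonneg fun w _ => h w) (Nat.cast_nonneg _)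

theorem avg_mono {F G : Ω → ℝ} (h : ∀ w, F w ≤ G w) : avg F ≤ avg G :=
  div_le_div_of_nonneg_right (Finset.sum_le_sum fun w _ => h w) (Nat.cast_nonneg _)

theorem avg_abs (F : Ω → ℝ) : |avg F| ≤ avg fun w => |F w| := by
  unfold avg
  rw [abs_div, abs_of_nonneg (Nat.cast_nonneg (α := ℝ) (Fintype.card Ω))]
  exact div_le_div_of_nonneg_right (Finset.abs_sum_le_sum_abs _ _) (Nat.cast_nonneg _)

theorem avg_const [Nonempty Ω] (c : ℝ) : avg (fun _ : Ω => c) = c := by
  unfold avg
  rw [Finset.sum_const, nsmul_eq_mul, Finset.card_univ]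
  have : (Fintype.card Ω : ℝ) ≠ 0 := by
    exact_mod_cast Fintype.card_ne_zero
  field_simp

theorem avg_sum {ι : Type*} (s : Finset ι) (F : ι → Ω → ℝ) :
    avg (fun w => ∑ i ∈ s, F i w) = ∑ i ∈ s, avg (F i) := by
  unfold avg
  rw [Finset.sum_comm, Finset.sum_div]

theorem avg_mul_left (c : ℝ) (F : Ω → ℝ) : avg (fun w => c * F w) = c * avg F := by
  unfold avg
  rw [← Finset.mul_sum, mul_div_assoc]

end

section

variable {V Λ J : Type*} [Fintype V] [DecidableEq V] [Fintype Λ] [DecidableEq Λ] [Fintype J]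

/-- EXB: the expectation of a product is the product over the blocks -/
theorem exb (v : J → V) (φ : J → Λ → ℝ) :
    avg (fun h : V → Λ => ∏ t, φ t (h (v t)))
      = ∏ u, avg fun l => ∏ t ∈ Finset.univ.filter (fun t => v t = u), φ t l := by
  unfold avg
  rw [Finset.prod_div_distrib]
  congr 1
  · rw [Finset.prod_univ_sum, Fintype.piFinset_univ]
    refine Finset.sum_congr rfl fun h _ => ?_
    show ∏ t, φ t (h (v t)) = _
    rw [← Finset.prod_fiberwise (s := Finset.univ) (g := v)]
    refine Finset.prod_congr rfl fun u _ => ?_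
    refine Finset.prod_congr rfl fun t ht => ?_
    rw [(Finset.mem_filter.1 ht).2]
  · rw [Finset.prod_const, Finset.card_univ, Fintype.card_fun]
    push_cast
    rfl

theorem exb_abs (v : J → V) (φ : J → Λ → ℝ) :
    |avg (fun h : V → Λ => ∏ t, φ t (h (v t)))|
      = ∏ u, |avg fun l => ∏ t ∈ Finset.univ.filter (fun t => v t = u), φ t l| := by
  rw [exb, Finset.abs_prod]

/-- the mark -/
def mk (M : ℝ) (l₀ l : Λ) : ℝ := if l = l₀ then M - 1 else -1

theorem abs_mk_le {M : ℝ} (hM : 1 ≤ M) (l₀ l : Λ) :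
    |mk M l₀ l| ≤ if l = l₀ then M else 1 := by
  unfold mk
  split_ifs
  · rw [abs_of_nonneg (by linarith)]
    linarith
  · simp

omit [Fintype J] in
theorem prod_abs_mk_le {M : ℝ} (hM : 1 ≤ M) (Z : Finset J) (lab : J → Λ) (l : Λ) :
    ∏ t ∈ Z, |mk M (lab t) l| ≤ M ^ (Z.filter fun t => lab t = l).card := by
  calc ∏ t ∈ Z, |mk M (lab t) l| ≤ ∏ t ∈ Z, (if lab t = l then M else 1) := by
        refine Finset.prod_le_prod (fun t _ => abs_nonneg _) fun t _ => ?_
        refine (abs_mk_le hM _ _).trans (le_of_eq ?_)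
        by_cases h : l = lab t
        · rw [if_pos h, if_pos h.symm]
        · rw [if_neg h, if_neg (Ne.symm h)]
    _ = M ^ (Z.filter fun t => lab t = l).card := by
        rw [Finset.prod_ite, Finset.prod_const, Finset.prod_const_one, mul_one]

omit [Fintype J] in
/-- the average of a product of marks, when every label has multiplicity at most `μ` -/
theorem avg_prod_abs_mk_le (Z : Finset J) (lab : J → Λ) (μ : ℕ) (hμ : 1 ≤ μ)
    (hlab : ∀ l, (Z.filter fun t => lab t = l).card ≤ μ) (hΛ : 1 ≤ Fintype.card Λ) :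
    (avg fun l => ∏ t ∈ Z, |mk (Fintype.card Λ : ℝ) (lab t) l|)
      ≤ ((Z.card : ℝ) + 1) * (Fintype.card Λ : ℝ) ^ (μ - 1) := by
  set M : ℝ := (Fintype.card Λ : ℝ) with hM
  have hM1 : 1 ≤ M := by rw [hM]; exact_mod_cast hΛ
  have hM0 : 0 < M := by linarith
  have h1 : ∀ l, ∏ t ∈ Z, |mk M (lab t) l|
      ≤ (∑ t ∈ Z, (if lab t = l then M ^ μ else 0)) + 1 := by
    intro l
    refine (prod_abs_mk_le hM1 Z lab l).trans ?_
    rw [← Finset.sum_filter, Finset.sum_const, nsmul_eq_mul]
    rcases Nat.eq_zero_or_pos (Z.filter fun t => lab t = l).card with h0 | h0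
    · rw [h0]; simp
    · have h2 : M ^ (Z.filter fun t => lab t = l).card ≤ M ^ μ :=
        pow_le_pow_right₀ hM1 (hlab l)
      have h3 : (1 : ℝ) ≤ ((Z.filter fun t => lab t = l).card : ℝ) := by exact_mod_cast h0
      have h4 : 0 ≤ M ^ μ := by positivity
      nlinarith
  have h2 : (avg fun l => ∏ t ∈ Z, |mk M (lab t) l|)
      ≤ avg fun l => ((∑ t ∈ Z, (if lab t = l then M ^ μ else 0)) + 1 : ℝ) := avg_mono h1
  refine h2.trans ?_
  unfold avg
  rw [Finset.sum_add_distrib, Finset.sum_comm]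
  simp only [Finset.sum_ite_eq, Finset.mem_univ, if_true, Finset.sum_const, nsmul_eq_mul,
    Finset.card_univ, mul_one]
  rw [← hM, div_le_iff₀ hM0]
  have h3 : M ^ μ = M ^ (μ - 1) * M := by
    rw [← pow_succ]; congr 1; omega
  rw [h3]
  have h4 : 1 ≤ M ^ (μ - 1) := one_le_pow₀ hM1
  nlinarith [mul_le_mul_of_nonneg_right h4 hM0.le]

theorem avg_mk (lab : Λ) : avg (mk (Fintype.card Λ : ℝ) lab) = 0 := by
  unfold avg mk
  rw [Finset.sum_ite, Finset.sum_const, Finset.sum_const, nsmul_eq_mul, nsmul_eq_mul]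
  have h1 : (Finset.univ.filter fun l => l = lab).card = 1 := by
    rw [Finset.filter_eq']; simp
  have h2 : (Finset.univ.filter fun l => ¬ l = lab).card = Fintype.card Λ - 1 := by
    rw [Finset.filter_not, Finset.card_sdiff_of_subset (Finset.filter_subset _ _), h1,
      Finset.card_univ]
  rw [h1, h2, Nat.cast_sub (Fintype.card_pos_iff.2 ⟨lab⟩)]
  push_cast
  ring_nf

end

end Pool.Agent.C4M.H58
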