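import Mathlib

/-! FLO: rounding of the weights of a bipartite graph (extreme points of a polytope). -/

set_option autoImplicit false
set_option linter.unusedSectionVars false

namespace Pool.Agent.C4W.H58

open Finset Classical

variable {ι V : Type} [Fintype ι] [Fintype V]

/-- incidence of the edge `i` with the vertex `u` (left or right) -/
def inc (r c : ι → V) (i : ι) : V ⊕ V → Prop
  | Sum.inl x => r i = x
  | Sum.inr y => c i = y

/-- sum of the weights at a vertex -/
noncomputable def sm (r c : ι → V) (g : ι → ℝ) (u : V ⊕ V) : ℝ :=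
  ∑ i ∈ Finset.univ.filter (fun i => inc r c i u), g i

theorem sm_add (r c : ι → V) (g g' : ι → ℝ) (u : V ⊕ V) :
    sm r c (g + g') u = sm r c g u + sm r c g' u := by
  simp [sm, Finset.sum_add_distrib]

theorem sm_smul (r c : ι → V) (t : ℝ) (g : ι → ℝ) (u : V ⊕ V) :
    sm r c (t • g) u = t * sm r c g u := by
  simp [sm, Finset.mul_sum]

theorem continuous_sm (r c : ι → V) (u : V ⊕ V) : Continuous fun g : ι → ℝ => sm r c g u := by
  unfold sm
  exact continuous_finsetSum _ fun i _ => continuous_apply i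

theorem sum_inl (r c : ι → V) (g : ι → ℝ) : ∑ x, sm r c g (Sum.inl x) = ∑ i, g i := by
  unfold sm inc
  exact Finset.sum_fiberwise _ _ _

theorem sum_inr (r c : ι → V) (g : ι → ℝ) : ∑ x, sm r c g (Sum.inr x) = ∑ i, g i := by
  unfold sm inc
  exact Finset.sum_fiberwise _ _ _

/-- degree in a set of edges -/
noncomputable def dg (r c : ι → V) (E : Finset ι) (u : V ⊕ V) : ℕ :=
  (E.filter fun i => inc r c i u).card

theorem sum_dg (r c : ι → V) (E : Finset ι) : ∑ u, dg r c E u = 2 * E.card := by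
  rw [Fintype.sum_sum_type]
  unfold dg inc
  rw [← Finset.card_eq_sum_card_fiberwise (f := r) (t := Finset.univ)
      (fun _ _ => Finset.mem_coe.2 (Finset.mem_univ _)),
    ← Finset.card_eq_sum_card_fiberwise (f := c) (t := Finset.univ)
      (fun _ _ => Finset.mem_coe.2 (Finset.mem_univ _))]
  ring

/-- a direction in the kernel of fewer constraints -/
theorem exists_dir (r c : ι → V) (E : Finset ι) (T : Finset (V ⊕ V)) (h : T.card < E.card) :
    ∃ δ : ι → ℝ, δ ≠ 0 ∧ (∀ i, i ∉ E → δ i = 0) ∧ ∀ u ∈ T, sm r c δ u = 0 := by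
  let ext : (E → ℝ) →ₗ[ℝ] (ι → ℝ) :=
    { toFun := fun f i => if h : i ∈ E then f ⟨i, h⟩ else 0
      map_add' := by intro f g; funext i; by_cases h : i ∈ E <;> simp [h]
      map_smul' := by intro a f; funext i; by_cases h : i ∈ E <;> simp [h] }
  let L : (E → ℝ) →ₗ[ℝ] (T → ℝ) :=
    { toFun := fun f u => sm r c (ext f) u
      map_add' := by intro f g; funext u; rw [map_add, sm_add]; rfl
      map_smul' := by intro a f; funext u; rw [map_smul, sm_smul]; rfl }
  have hker : LinearMap.ker L ≠ ⊥ := by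
    apply LinearMap.ker_ne_bot_of_finrank_lt
    simp only [Module.finrank_fintype_fun_eq_card, Fintype.card_coe]
    exact h
  obtain ⟨f, hf, hf0⟩ := (Submodule.ne_bot_iff _).1 hker
  refine ⟨ext f, ?_, ?_, ?_⟩
  · intro h0
    apply hf0
    funext i
    have := congrFun h0 i
    simpa [ext] using this
  · intro i hi
    simp [ext, hi]
  · intro u hu
    exact congrFun (LinearMap.mem_ker.1 hf) ⟨u, hu⟩

/-- rounding -/
theorem round (r c : ι → V) (w : ι → ℝ) (hw : ∀ i, 0 ≤ w i ∧ w i ≤ 1) :
    ∃ g : ι → ℝ, (∀ i, g i = 0 ∨ g i = 1) ∧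
      ∀ u, (⌊sm r c w u⌋ : ℝ) ≤ sm r c g u ∧ sm r c g u ≤ ⌈sm r c w u⌉ := by
  set Q : Set (ι → ℝ) := Set.Icc 0 1 ∩
    ⋂ u, {g | (⌊sm r c w u⌋ : ℝ) ≤ sm r c g u ∧ sm r c g u ≤ ⌈sm r c w u⌉} with hQ
  have hcomp : IsCompact Q := by
    refine isCompact_Icc.inter_right (isClosed_iInter fun u => ?_)
    exact (isClosed_le continuous_const (continuous_sm r c u)).inter
      (isClosed_le (continuous_sm r c u) continuous_const)
  have hne : Q.Nonempty := by
    refine ⟨w, ⟨fun i => (hw i).1, fun i => (hw i).2⟩, ?_⟩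
    rw [Set.mem_iInter]
    exact fun u => ⟨Int.floor_le _, Int.le_ceil _⟩
  obtain ⟨g, hg⟩ := hcomp.extremePoints_nonempty hne
  have hgQ : g ∈ Q := extremePoints_subset hg
  have hg01 : ∀ i, 0 ≤ g i ∧ g i ≤ 1 := fun i => ⟨hgQ.1.1 i, hgQ.1.2 i⟩
  have hgu : ∀ u, (⌊sm r c w u⌋ : ℝ) ≤ sm r c g u ∧ sm r c g u ≤ ⌈sm r c w u⌉ :=
    fun u => (Set.mem_iInter.1 hgQ.2 u)
  refine ⟨g, ?_, hgu⟩
  set E : Finset ι := Finset.univ.filter fun i => g i ≠ 0 ∧ g i ≠ 1 with hE
  have hmemE : ∀ i, i ∈ E ↔ (g i ≠ 0 ∧ g i ≠ 1) := fun i => by simp [hE]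
  suffices hE0 : E = ∅ by
    intro i
    by_contra hcon
    push Not at hcon
    have : i ∈ E := (hmemE i).2 hcon
    rw [hE0] at this
    exact absurd this (Finset.notMem_empty i)
  by_contra hEne
  -- integral vertices
  set T : Finset (V ⊕ V) := Finset.univ.filter fun u => (∃ z : ℤ, sm r c g u = z) ∧
    0 < dg r c E u with hT
  have hdeg : ∀ u ∈ T, 2 ≤ dg r c E u := by
    intro u hu
    obtain ⟨⟨z, hz⟩, hpos⟩ := (Finset.mem_filter.1 hu).2
    by_contra hlt
    have h1 : dg r c E u = 1 := by omega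
    unfold dg at h1
    obtain ⟨i0, hi0⟩ := Finset.card_eq_one.1 h1
    have hi0' : i0 ∈ E ∧ inc r c i0 u := by
      have : i0 ∈ E.filter fun i => inc r c i u := by rw [hi0]; exact Finset.mem_singleton_self _
      exact Finset.mem_filter.1 this
    -- the other edges have integral weights
    have h2 : ∃ z' : ℤ, ∑ i ∈ (Finset.univ.filter (fun i => inc r c i u)).erase i0, g i = z' := by
      have h3 : ∀ i ∈ (Finset.univ.filter (fun i => inc r c i u)).erase i0, ∃ z' : ℤ, g i = z' := by
        intro i hi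
        obtain ⟨hne', hi'⟩ := Finset.mem_erase.1 hi
        have h4 : i ∉ E := by
          intro h5
          have : i ∈ E.filter fun i => inc r c i u :=
            Finset.mem_filter.2 ⟨h5, (Finset.mem_filter.1 hi').2⟩
          rw [hi0, Finset.mem_singleton] at this
          exact hne' this
        rw [hmemE] at h4
        by_cases h5 : g i = 0
        · exact ⟨0, by simp [h5]⟩
        · have h6 : g i = 1 := by
            by_contra h7
            exact h4 ⟨h5, h7⟩
          exact ⟨1, by simp [h6]⟩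
      choose! f hf using h3
      refine ⟨∑ i ∈ (Finset.univ.filter (fun i => inc r c i u)).erase i0, f i, ?_⟩
      push_cast
      exact Finset.sum_congr rfl fun i hi => hf i hi
    obtain ⟨z', hz'⟩ := h2
    have h3 : sm r c g u = g i0 + z' := by
      unfold sm
      rw [← Finset.add_sum_erase _ _ (Finset.mem_filter.2 ⟨Finset.mem_univ i0, hi0'.2⟩), hz']
    have h4 : g i0 = ((z - z' : ℤ) : ℝ) := by
      push_cast
      linarith
    have h5 := hg01 i0
    have h6 := (hmemE i0).1 hi0'.1
    rw [h4] at h5 h6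
    have h7 : (0 : ℤ) ≤ z - z' := by exact_mod_cast h5.1
    have h8 : z - z' ≤ (1 : ℤ) := by exact_mod_cast h5.2
    have h9 : z - z' ≠ 0 := by
      intro h
      apply h6.1
      rw [h]; simp
    have h10 : z - z' ≠ 1 := by
      intro h
      apply h6.2
      rw [h]; simp
    omega
  have hcount : T.card ≤ E.card := by
    have h1 : ∑ u ∈ T, 2 ≤ ∑ u ∈ T, dg r c E u := Finset.sum_le_sum hdeg
    have h2 : ∑ u ∈ T, dg r c E u ≤ ∑ u, dg r c E u :=
      Finset.sum_le_sum_of_subset (Finset.subset_univ T)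
    rw [sum_dg] at h2
    rw [Finset.sum_const, smul_eq_mul] at h1
    omega
  obtain ⟨i0, hi0⟩ : ∃ i0, i0 ∈ E := Finset.nonempty_iff_ne_empty.2 hEne
  have hzero : ∀ (δ : ι → ℝ), (∀ i, i ∉ E → δ i = 0) → ∀ u, dg r c E u = 0 → sm r c δ u = 0 := by
    intro δ hδ u hu
    unfold sm
    refine Finset.sum_eq_zero fun i hi => ?_
    apply hδ
    intro h
    unfold dg at hu
    rw [Finset.card_eq_zero] at hu
    have : i ∈ E.filter fun i => inc r c i u := Finset.mem_filter.2 ⟨h, (Finset.mem_filter.1 hi).2⟩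
    rw [hu] at this
    exact absurd this (Finset.notMem_empty i)
  -- the direction
  obtain ⟨δ, hδ0, hδE, hδT⟩ : ∃ δ : ι → ℝ, δ ≠ 0 ∧ (∀ i, i ∉ E → δ i = 0) ∧
      ∀ u ∈ T, sm r c δ u = 0 := by
    rcases Nat.lt_or_ge T.card E.card with hlt | hge
    · exact exists_dir r c E T hlt
    · -- all vertices of positive degree are in `T`
      have hall : ∀ u, u ∉ T → dg r c E u = 0 := by
        intro u hu
        have h1 : ∑ u ∈ T, 2 ≤ ∑ u ∈ T, dg r c E u := Finset.sum_le_sum hdeg
        rw [Finset.sum_const, smul_eq_mul] at h1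
        have h2 := sum_dg r c E
        rw [← Finset.sum_add_sum_compl T] at h2
        have h3 : dg r c E u ≤ ∑ u ∈ Tᶜ, dg r c E u :=
          Finset.single_le_sum (f := fun u => dg r c E u) (fun _ _ => Nat.zero_le _)
            (Finset.mem_compl.2 hu)
        omega
      set u0 : V ⊕ V := Sum.inl (r i0) with hu0
      have hu0T : u0 ∈ T := by
        by_contra h
        have h1 := hall u0 h
        unfold dg at h1
        rw [Finset.card_eq_zero] at h1
        have : i0 ∈ E.filter fun i => inc r c i u0 := Finset.mem_filter.2 ⟨hi0, rfl⟩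
        rw [h1] at this
        exact absurd this (Finset.notMem_empty i0)
      obtain ⟨δ, hδ0, hδE, hδT⟩ := exists_dir r c E (T.erase u0) (by
        rw [Finset.card_erase_of_mem hu0T]
        have : 0 < T.card := Finset.card_pos.2 ⟨u0, hu0T⟩
        omega)
      refine ⟨δ, hδ0, hδE, ?_⟩
      have hother : ∀ u, u ≠ u0 → sm r c δ u = 0 := by
        intro u hu
        by_cases huT : u ∈ T
        · exact hδT u (Finset.mem_erase.2 ⟨hu, huT⟩)
        · exact hzero δ hδE u (hall u huT)
      intro u hu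
      by_cases huu : u = u0
      · rw [huu]
        have h1 : ∑ x, sm r c δ (Sum.inl x) = sm r c δ u0 := by
          rw [Finset.sum_eq_single (r i0)]
          · intro b _ hb
            exact hother _ (by rw [hu0]; simpa using hb)
          · intro h; exact absurd (Finset.mem_univ _) h
        have h2 : ∑ y, sm r c δ (Sum.inr y) = 0 :=
          Finset.sum_eq_zero fun y _ => hother _ (by rw [hu0]; simp)
        rw [sum_inl, ← sum_inr r c, h2] at h1
        exact h1.symm
      · exact hother u huu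
  -- small perturbations
  have hev : ∀ᶠ t : ℝ in nhds 0, g + t • δ ∈ Q := by
    have h1 : ∀ i, ∀ᶠ t : ℝ in nhds 0, 0 ≤ g i + t * δ i ∧ g i + t * δ i ≤ 1 := by
      intro i
      by_cases hi : i ∈ E
      · have h2 := (hmemE i).1 hi
        have h3 := hg01 i
        have h4 : 0 < g i := lt_of_le_of_ne h3.1 (Ne.symm h2.1)
        have h5 : g i < 1 := lt_of_le_of_ne h3.2 h2.2
        have hc : ContinuousAt (fun t : ℝ => g i + t * δ i) 0 := by fun_prop
        have h6 : ∀ᶠ t : ℝ in nhds 0, 0 < g i + t * δ i :=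
          hc.eventually (lt_mem_nhds (by simpa using h4))
        have h7 : ∀ᶠ t : ℝ in nhds 0, g i + t * δ i < 1 :=
          hc.eventually (gt_mem_nhds (by simpa using h5))
        filter_upwards [h6, h7] with t h8 h9
        exact ⟨h8.le, h9.le⟩
      · refine Filter.Eventually.of_forall fun t => ?_
        rw [hδE i hi, mul_zero, add_zero]
        exact hg01 i
    have h2 : ∀ u, ∀ᶠ t : ℝ in nhds 0, (⌊sm r c w u⌋ : ℝ) ≤ sm r c g u + t * sm r c δ u ∧
        sm r c g u + t * sm r c δ u ≤ ⌈sm r c w u⌉ := by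
      intro u
      by_cases hu : ∃ z : ℤ, sm r c g u = z
      · have h3 : sm r c δ u = 0 := by
          by_cases hd : 0 < dg r c E u
          · exact hδT u (Finset.mem_filter.2 ⟨Finset.mem_univ _, hu, hd⟩)
          · exact hzero δ hδE u (by omega)
        refine Filter.Eventually.of_forall fun t => ?_
        rw [h3, mul_zero, add_zero]
        exact hgu u
      · have h4 : (⌊sm r c w u⌋ : ℝ) < sm r c g u :=
          lt_of_le_of_ne (hgu u).1 fun h => hu ⟨_, h.symm⟩
        have h5 : sm r c g u < ⌈sm r c w u⌉ :=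
          lt_of_le_of_ne (hgu u).2 fun h => hu ⟨_, h⟩
        have hc : ContinuousAt (fun t : ℝ => sm r c g u + t * sm r c δ u) 0 := by fun_prop
        have h6 : ∀ᶠ t : ℝ in nhds 0, (⌊sm r c w u⌋ : ℝ) < sm r c g u + t * sm r c δ u :=
          hc.eventually (lt_mem_nhds (by simpa using h4))
        have h7 : ∀ᶠ t : ℝ in nhds 0, sm r c g u + t * sm r c δ u < ⌈sm r c w u⌉ :=
          hc.eventually (gt_mem_nhds (by simpa using h5))
        filter_upwards [h6, h7] with t h8 h9
        exact ⟨h8.le, h9.le⟩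
    filter_upwards [Filter.eventually_all.2 h1, Filter.eventually_all.2 h2] with t h3 h4
    refine ⟨⟨fun i => ?_, fun i => ?_⟩, ?_⟩
    · exact (h3 i).1
    · exact (h3 i).2
    · rw [Set.mem_iInter]
      intro u
      show _ ≤ sm r c (g + t • δ) u ∧ sm r c (g + t • δ) u ≤ _
      rw [sm_add, sm_smul]
      exact h4 u
  obtain ⟨ε, hε, hball⟩ := Metric.eventually_nhds_iff.1 hev
  have hp : g + (ε / 2) • δ ∈ Q := hball (by
    rw [Real.dist_eq, sub_zero, abs_of_pos (by linarith)]; linarith)
  have hm : g + (-(ε / 2)) • δ ∈ Q := hball (by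
    rw [Real.dist_eq, sub_zero, abs_neg, abs_of_pos (by linarith)]; linarith)
  have hseg : g ∈ openSegment ℝ (g + (ε / 2) • δ) (g + (-(ε / 2)) • δ) := by
    refine ⟨1 / 2, 1 / 2, by norm_num, by norm_num, by norm_num, ?_⟩
    funext i
    simp only [Pi.add_apply, Pi.smul_apply, smul_eq_mul]
    ring
  have heq := (mem_extremePoints.1 hg).2 _ hp _ hm hseg
  apply hδ0
  have h1 : (ε / 2) • δ = 0 := by
    have := heq.1
    simpa using this
  have h2 : ε / 2 ≠ 0 := by linarith [hε] |> fun (h : 0 < ε / 2) => h.ne'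
  exact (smul_eq_zero.1 h1).resolve_left h2

end Pool.Agent.C4W.H58
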