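import Pool.Agent.Helper58_C4.Cnt

/-! REV: the sum over the maps of a forest into a C4-free graph, weighted by the coincidences. -/

set_option autoImplicit false

namespace Pool.Agent.C4M.H58

open Finset

variable {V : Type*} [DecidableEq V] {m : ℕ}

/-- the value at the parent -/
def pv (par : Fin m → Option (Fin m)) (x : V) (v : Fin m → V) (t : Fin m) : V :=
  match par t with
  | none => x
  | some j => v j

/-- the first index with the same value, `none` if the value is the root -/
noncomputable def pat (x : V) (v : Fin m → V) (t : Fin m) : Option (Fin m) :=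
  if v t = x then none
  else some ((Finset.univ.filter fun j => v j = v t).min' ⟨t, by simp⟩)

/-- the index `t` is not fresh -/
def Old (x : V) (v : Fin m → V) (t : Fin m) : Prop := v t = x ∨ ∃ j < t, v j = v t

/-- the index `t` is fresh and has a child whose value is known before `t` -/
def Bt (par : Fin m → Option (Fin m)) (x : V) (v : Fin m → V) (t : Fin m) : Prop :=
  ¬ Old x v t ∧ ∃ c, par c = some t ∧ (v c = x ∨ ∃ j < t, v j = v c)

theorem pat_none {x : V} {v : Fin m → V} {t : Fin m} : pat x v t = none ↔ v t = x := by
  unfold pat
  split_ifs with h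
  · simp [h]
  · simp [h]

theorem pat_some {x : V} {v : Fin m → V} {t j : Fin m} (h : pat x v t = some j) :
    v j = v t ∧ (∀ i, v i = v t → j ≤ i) ∧ v t ≠ x := by
  unfold pat at h
  split_ifs at h with hx
  have h1 := Option.some.inj h
  have hm := Finset.min'_mem (Finset.univ.filter fun j => v j = v t) ⟨t, by simp⟩
  rw [h1] at hm
  refine ⟨(Finset.mem_filter.1 hm).2, ?_, hx⟩
  intro i hi
  rw [← h1]
  exact Finset.min'_le _ _ (by simp [hi])

theorem old_iff {x : V} {v : Fin m → V} {t : Fin m} : Old x v t ↔ pat x v t ≠ some t := by
  constructor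
  · rintro (h | ⟨j, hj, hv⟩) hp
    · rw [pat_none.2 h] at hp
      exact absurd hp (by simp)
    · have := (pat_some hp).2.1 j hv
      omega
  · intro hp
    by_cases hx : v t = x
    · exact Or.inl hx
    · right
      obtain ⟨j, hj⟩ := Option.ne_none_iff_exists'.1 (fun h => hx (pat_none.1 h) :
        pat x v t ≠ none)
      obtain ⟨h1, h2, _⟩ := pat_some hj
      refine ⟨j, lt_of_le_of_ne (h2 t rfl) ?_, h1⟩
      rintro rfl
      exact hp hj

theorem known_iff {x : V} {v : Fin m → V} {t c : Fin m} :
    (v c = x ∨ ∃ j < t, v j = v c) ↔ (pat x v c = none ∨ ∃ j < t, pat x v c = some j) := by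
  constructor
  · rintro (h | ⟨j, hj, hv⟩)
    · exact Or.inl (pat_none.2 h)
    · by_cases hx : v c = x
      · exact Or.inl (pat_none.2 hx)
      · obtain ⟨i, hi⟩ := Option.ne_none_iff_exists'.1 (fun h => hx (pat_none.1 h) :
          pat x v c ≠ none)
        exact Or.inr ⟨i, ((pat_some hi).2.1 j hv).trans_lt hj, hi⟩
  · rintro (h | ⟨j, hj, hv⟩)
    · exact Or.inl (pat_none.1 h)
    · exact Or.inr ⟨j, hj, (pat_some hv).1⟩

/-- the exceptional indices of a pattern -/
def BP (par : Fin m → Option (Fin m)) (P : Fin m → Option (Fin m)) (t : Fin m) : Prop :=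
  P t = some t ∧ ∃ c, par c = some t ∧ (P c = none ∨ ∃ j < t, P c = some j)

theorem bt_iff {par : Fin m → Option (Fin m)} {x : V} {v : Fin m → V} {t : Fin m} :
    Bt par x v t ↔ BP par (pat x v) t := by
  unfold Bt BP
  rw [old_iff, not_not]
  simp only [known_iff]

/-- REV: the number of maps with a given pattern -/
theorem card_pat [Fintype V] (par : Fin m → Option (Fin m))
    (N : V → V → Prop) [DecidableRel N] (hsym : ∀ u w, N u w → N w u)
    (hC4 : ∀ u w, u ≠ w → ((Finset.univ.filter fun y => N u y ∧ N w y).card) ≤ 1)
    (nb : Fin m → V → Finset V) (hnb : ∀ t u, ∀ y ∈ nb t u, N u y)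
    (hpar : ∀ t j, par t = some j → j < t)
    (cap : Fin m → ℝ) (hcap : ∀ t u, ((nb t u).card : ℝ) ≤ cap t)
    (hcap0 : ∀ t, 0 ≤ cap t) (x : V) (S : Finset (Fin m → V))
    (hS1 : ∀ v ∈ S, ∀ t, v t ∈ nb t (pv par x v t))
    (hS2 : ∀ v ∈ S, ∀ c t, par c = some t → v c ≠ pv par x v t)
    (P : Fin m → Option (Fin m)) (hP : ∀ v ∈ S, pat x v = P) :
    (S.card : ℝ) ≤ ∏ t, (open Classical in
      if P t = some t ∧ ¬ BP par P t then cap t else 1) := by
  classical
  -- the child used at an index of B
  have hch : ∀ t, BP par P t → ∃ c, par c = some t ∧ (P c = none ∨ ∃ j < t, P c = some j) :=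
    fun t h => h.2
  let kn : Fin m → (Fin m → V) → V := fun t v =>
    if h : BP par P t then
      (match P (hch t h).choose with
        | none => x
        | some j => v j)
    else x
  let T : Fin m → (Fin m → V) → Finset V := fun t v =>
    match P t with
    | none => {x}
    | some j =>
      if j = t then
        if BP par P t then
          (if kn t v = pv par x v t then ∅
            else Finset.univ.filter fun y => N (pv par x v t) y ∧ N (kn t v) y)
        else nb t (pv par x v t)
      else if j < t then {v j} else ∅
  refine card_le_prod_real S T _ ?_ ?_ ?_ ?_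
  · intro t
    split_ifs
    · exact hcap0 t
    · exact zero_le_one
  · intro t v w hvw
    have hpv : pv par x v t = pv par x w t := by
      unfold pv
      rcases h : par t with _ | j
      · rfl
      · exact hvw j (hpar t j h)
    have hkn : kn t v = kn t w := by
      simp only [kn]
      split_ifs with h
      · have h1 := (hch t h).choose_spec.2
        rcases h2 : P (hch t h).choose with _ | j
        · rfl
        · rcases h1 with h1 | ⟨i, hi, h1⟩
          · rw [h1] at h2; exact absurd h2 (by simp)
          · rw [h1] at h2
            obtain rfl := Option.some.inj h2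
            exact hvw i hi
      · rfl
    simp only [T]
    rcases h : P t with _ | j
    · rfl
    · simp only [hpv, hkn]
      split_ifs with h1 h2 h3 h4
      · rfl
      · rfl
      · rfl
      · rw [hvw j h4]
      · rfl
  · intro t v
    simp only [T]
    rcases h : P t with _ | j
    · simp
    · simp only []
      by_cases h1 : j = t
      · subst h1
        rw [if_pos rfl]
        by_cases h2 : BP par P j
        · have h20 : ¬ (some j = some j ∧ ¬ BP par P j) := by tauto
          rw [if_pos h2, if_neg h20]
          by_cases h3 : kn j v = pv par x v j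
          · rw [if_pos h3]
            simp
          · rw [if_neg h3]
            have := hC4 (pv par x v j) (kn j v) (Ne.symm h3)
            exact_mod_cast this
        · rw [if_neg h2, if_pos ⟨by rfl, h2⟩]
          exact hcap j _
      · rw [if_neg h1]
        have h2 : ¬ (some j = some t ∧ ¬ BP par P t) := fun h => h1 (Option.some.inj h.1)
        rw [if_neg h2]
        split_ifs <;> simp
  · intro v hv t
    have hPv := hP v hv
    simp only [T]
    rcases h : P t with _ | j
    · have h1 : pat x v t = none := by rw [hPv]; exact h
      rw [pat_none] at h1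
      simp [h1]
    · have h1 : pat x v t = some j := by rw [hPv]; exact h
      obtain ⟨h2, h3, h4⟩ := pat_some h1
      simp only []
      by_cases h5 : j = t
      · subst h5
        rw [if_pos rfl]
        by_cases h6 : BP par P j
        · rw [if_pos h6]
          -- the known value
          have hspec := (hch j h6).choose_spec
          set c := (hch j h6).choose with hc
          have hkn : kn j v = v c := by
            simp only [kn]
            rw [dif_pos h6]
            rcases h7 : P c with _ | i
            · have : pat x v c = none := by rw [hPv]; exact h7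
              rw [pat_none] at this
              exact this.symm
            · have : pat x v c = some i := by rw [hPv]; exact h7
              exact (pat_some this).1
          have hne : kn j v ≠ pv par x v j := by
            rw [hkn]
            exact hS2 v hv c j hspec.1
          rw [if_neg hne, Finset.mem_filter]
          refine ⟨Finset.mem_univ _, hnb j _ _ (hS1 v hv j), ?_⟩
          rw [hkn]
          have h8 := hnb c _ _ (hS1 v hv c)
          have h9 : pv par x v c = v j := by
            unfold pv
            rw [hspec.1]
          rw [h9] at h8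
          exact hsym _ _ h8
        · rw [if_neg h6]
          exact hS1 v hv j
      · rw [if_neg h5, if_pos (lt_of_le_of_ne (h3 t rfl) h5)]
        simp [h2]

open Classical in
/-- REV -/
theorem rev [Fintype V] (par : Fin m → Option (Fin m))
    (N : V → V → Prop) [DecidableRel N] (hsym : ∀ u w, N u w → N w u)
    (hC4 : ∀ u w, u ≠ w → ((Finset.univ.filter fun y => N u y ∧ N w y).card) ≤ 1)
    (nb : Fin m → V → Finset V) (hnb : ∀ t u, ∀ y ∈ nb t u, N u y)
    (hpar : ∀ t j, par t = some j → j < t)
    (s : ℝ) (hs : 1 ≤ s) (cap : Fin m → ℝ) (hcap : ∀ t u, ((nb t u).card : ℝ) ≤ cap t)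
    (hcaps : ∀ t, s ≤ cap t) (x : V) (S : Finset (Fin m → V))
    (hS1 : ∀ v ∈ S, ∀ t, v t ∈ nb t (pv par x v t))
    (hS2 : ∀ v ∈ S, ∀ c t, par c = some t → v c ≠ pv par x v t) :
    ∑ v ∈ S, s ^ ((Finset.univ.filter fun t => Old x v t).card +
      (Finset.univ.filter fun t => Bt par x v t).card) ≤ ((m : ℝ) + 1) ^ m * ∏ t, cap t := by
  have hcap0 : ∀ t, 0 ≤ cap t := fun t => (zero_le_one.trans hs).trans (hcaps t)
  set e : (Fin m → Option (Fin m)) → ℕ := fun P =>
    (Finset.univ.filter fun t => P t ≠ some t).card +
      (Finset.univ.filter fun t => BP par P t).card with he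
  have h1 : ∀ v, (Finset.univ.filter fun t => Old x v t).card +
      (Finset.univ.filter fun t => Bt par x v t).card = e (pat x v) := by
    intro v
    simp only [he, old_iff, bt_iff]
  have h2 : ∀ P : Fin m → Option (Fin m),
      ∑ v ∈ S.filter (fun v => pat x v = P), s ^ e (pat x v) ≤ ∏ t, cap t := by
    intro P
    have h3 : ∑ v ∈ S.filter (fun v => pat x v = P), s ^ e (pat x v)
        = ((S.filter fun v => pat x v = P).card : ℝ) * s ^ e P := by
      rw [← nsmul_eq_mul, ← Finset.sum_const]
      refine Finset.sum_congr rfl fun v hv => ?_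
      rw [(Finset.mem_filter.1 hv).2]
    rw [h3]
    have h4 := card_pat par N hsym hC4 nb hnb hpar cap hcap hcap0 x
      (S.filter fun v => pat x v = P) (fun v hv => hS1 v (Finset.mem_filter.1 hv).1)
      (fun v hv => hS2 v (Finset.mem_filter.1 hv).1) P (fun v hv => (Finset.mem_filter.1 hv).2)
    have h5 : s ^ e P = ∏ t, (if P t = some t ∧ ¬ BP par P t then 1 else s) := by
      rw [Finset.prod_ite, Finset.prod_const_one, one_mul, Finset.prod_const]
      congr 1
      simp only [he]
      rw [← Finset.card_union_of_disjoint]
      · congr 1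
        ext t
        simp only [Finset.mem_union, Finset.mem_filter, Finset.mem_univ, true_and]
        tauto
      · rw [Finset.disjoint_left]
        intro t ht ht'
        rw [Finset.mem_filter] at ht ht'
        exact ht.2 ht'.2.1
    have hs0 : 0 ≤ s := zero_le_one.trans hs
    calc ((S.filter fun v => pat x v = P).card : ℝ) * s ^ e P
        ≤ (∏ t, (if P t = some t ∧ ¬ BP par P t then cap t else 1)) * s ^ e P :=
          mul_le_mul_of_nonneg_right h4 (pow_nonneg hs0 _)
      _ = ∏ t, ((if P t = some t ∧ ¬ BP par P t then cap t else 1) *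
          (if P t = some t ∧ ¬ BP par P t then 1 else s)) := by
          rw [h5, Finset.prod_mul_distrib]
      _ ≤ ∏ t, cap t := by
          refine Finset.prod_le_prod (fun t _ => ?_) fun t _ => ?_
          · split_ifs
            · simpa using hcap0 t
            · simpa using hs0
          · split_ifs
            · simp
            · simpa using hcaps t
  simp only [h1]
  have h6 : ∑ v ∈ S, s ^ e (pat x v)
      = ∑ P : Fin m → Option (Fin m), ∑ v ∈ S.filter (fun v => pat x v = P), s ^ e (pat x v) := by
    rw [Finset.sum_fiberwise]
  rw [h6]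
  refine (Finset.sum_le_sum fun P _ => h2 P).trans ?_
  rw [Finset.sum_const, nsmul_eq_mul]
  refine le_of_eq ?_
  congr 1
  rw [Finset.card_univ, Fintype.card_fun, Fintype.card_option, Fintype.card_fin]
  push_cast
  rfl

end Pool.Agent.C4M.H58
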